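import Pool.Agent.H88.T56.Defs
import Pool.Agent.H16.RB.Push

/-!
# T56 module Class: images of small families in `F_5 ^ 3`

`g z = (S.filter fun x => ∀ i, τ i (y x) = z i).card`, `h z = (g z : ZMod 5)`.  As in the proof of `push_const` (Pool/Agent/H16/RB/Push.lean) all `diffs L h` with `L.length = 3` vanish (`deg_of_kills`, `10 + 2 = 12`), and `∑ g = S.card ≤ 125`.
If all `diffs L h` with `L.length = 2` vanish, `const_of_small` with `b = 1` gives that `h` is constant: if it is `0` we have the first alternative, otherwise all `g z ≥ 1`, so all `g z = 1`.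
Otherwise by `polar` (Pool/Agent/H16/RB/Polar.lean, `k = 2`) there are `e`, `c ≠ 0` with `diffs [e, e] h x = c` for all `x` (constant as third differences vanish).
Put `B x = h (x + e) - h x - c / 2` (`c / 2 = 3 c`); then `h (x + t e) = h x + B x t + 3 c t ^ 2` and `B (x + v) - B x` does not depend on `x`, so `B = B 0 + λ` with `λ` additive, `λ e = c`.
A decision over all `(h x, B x, c)` in `F_5 ^ 3`, `c ≠ 0` gives: the lifts (`ZMod.val`) of the five values on the line add up to at least `5`; so (each line `x + F_5 e` has at least `5` points, the lines partition) `125 ≤ ∑ g`, hence on each line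
the sum of `g` is exactly `5`, `g = val h`, and (decision) `h x = m + B x ^ 2 / (2 c)` with `m = 1` if `c = ± 2` and `m = 3` if `c = ± 1`; the values of `g` as a function of `B` in `F_5` are (in some order)
`1, 2, 2, 0, 0` or `3, 1, 1, 0, 0`; let `u1` be a value with `g = 1`, `u2`, `u3` the other two with `g ≠ 0`.  The homomorphism is `l v = λ (i ↦ τ i v)`, `c1 = u1 - B 0`, etc.; if `λ (Pi.single i 1) ≠ 0` then `μ1`, `μ2` are
`τ j`, `τ k` with `{i, j, k} = {0, 1, 2}`: for given `s`, `t` there is exactly one `z` with `λ z = c1`, `z j = s`, `z k = t`, and `g z = 1`.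
-/

set_option autoImplicit false

namespace Pool.Agent.H88.T56

open Finset Pool.Agent.H16.RB

private theorem cl_filter_eq {p s : ℕ} {X G : Type*} [AddCommGroup G] (y : X → G) (S : Finset X)
    (τ : Fin s → (G →+ ZMod p)) (z : Fin s → ZMod p) :
    (S.filter fun x => ∀ i, τ i (y x) = z i) = S.filter fun x => (fun i => τ i (y x)) = z := by
  apply Finset.filter_congr
  intro x _
  exact funext_iff.symm

private theorem cl_sum_eq {p s : ℕ} [NeZero p] {X G : Type*} [AddCommGroup G] (y : X → G)
    (S : Finset X) (τ : Fin s → (G →+ ZMod p)) (φ : (Fin s → ZMod p) → ZMod p) :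
    ∑ z, (((S.filter fun x => ∀ i, τ i (y x) = z i).card : ℕ) : ZMod p) * φ z =
      ∑ x ∈ S, φ (fun i => τ i (y x)) := by
  rw [← Finset.sum_fiberwise S (fun x => (fun i => τ i (y x))) (fun x => φ (fun i => τ i (y x)))]
  refine Finset.sum_congr rfl fun z _ => ?_
  rw [cl_filter_eq y S τ z]
  have h : ∑ x ∈ S.filter (fun x => (fun i => τ i (y x)) = z), φ (fun i => τ i (y x)) =
      ∑ _x ∈ S.filter (fun x => (fun i => τ i (y x)) = z), φ z := by
    refine Finset.sum_congr rfl fun x hx => ?_
    rw [(Finset.mem_filter.mp hx).2]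
  rw [h, Finset.sum_const, nsmul_eq_mul]

private theorem cl_card_eq {p s : ℕ} [NeZero p] {X G : Type*} [AddCommGroup G] (y : X → G)
    (S : Finset X) (τ : Fin s → (G →+ ZMod p)) :
    ∑ z : Fin s → ZMod p, (S.filter fun x => ∀ i, τ i (y x) = z i).card = S.card := by
  have h := Finset.card_eq_sum_card_fiberwise (s := S) (t := (Finset.univ : Finset (Fin s → ZMod p)))
    (f := fun x => (fun i => τ i (y x))) (fun x _ => Finset.mem_coe.mpr (Finset.mem_univ _))
  rw [h]
  refine Finset.sum_congr rfl fun z _ => ?_
  rw [cl_filter_eq y S τ z]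

/-- the minimum of the pattern -/
private def mm (c : ZMod 5) : ZMod 5 := if c = 2 ∨ c = 3 then 1 else 3

private theorem dec1 : ∀ a b c : ZMod 5, c ≠ 0 →
    5 ≤ a.val + (a + b + 3 * c).val + (a + 2 * b + 12 * c).val + (a + 3 * b + 27 * c).val +
      (a + 4 * b + 48 * c).val := by
  decide

private theorem dec2 : ∀ a b c : ZMod 5, c ≠ 0 →
    a.val + (a + b + 3 * c).val + (a + 2 * b + 12 * c).val + (a + 3 * b + 27 * c).val +
      (a + 4 * b + 48 * c).val = 5 → a = mm c + 3 * c ^ 3 * b ^ 2 := by
  decide

private theorem dec3 : ∀ c : ZMod 5, c ≠ 0 → ∃ u1 u2 u3 : ZMod 5, u1 ≠ u2 ∧ u1 ≠ u3 ∧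
    mm c + 3 * c ^ 3 * u1 ^ 2 = 1 ∧
    ∀ u : ZMod 5, mm c + 3 * c ^ 3 * u ^ 2 ≠ 0 → u = u1 ∨ u = u2 ∨ u = u3 := by
  decide

private theorem core (g : (Fin 3 → ZMod 5) → ℕ)
    (h3 : ∀ L : List (Fin 3 → ZMod 5), L.length = 3 → ∀ x,
      diffs L (fun z => (g z : ZMod 5)) x = 0) (hs : ∑ z, g z ≤ 125) :
    (∀ z w, (g z : ZMod 5) = (g w : ZMod 5)) ∨
      ∃ (lam : (Fin 3 → ZMod 5) →+ ZMod 5) (c b0 : ZMod 5) (e : Fin 3 → ZMod 5), c ≠ 0 ∧
        lam e ≠ 0 ∧ ∀ z, g z = (mm c + 3 * c ^ 3 * (b0 + lam z) ^ 2).val := by
  have : Fact (Nat.Prime 5) := ⟨Nat.prime_five⟩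
  have hV : ∀ v : Fin 3 → ZMod 5, 5 • v = 0 := by
    intro v
    funext i
    have : (5 : ZMod 5) = 0 := rfl
    simp [this]
  have hcard : Fintype.card (Fin 3 → ZMod 5) = 125 := by
    rw [Fintype.card_fun, ZMod.card, Fintype.card_fin]
    norm_num
  set h : (Fin 3 → ZMod 5) → ZMod 5 := fun z => (g z : ZMod 5) with hh
  by_cases hall : ∀ L : List (Fin 3 → ZMod 5), L.length = 1 + 1 → ∀ x, diffs L h x = 0
  · left
    intro z w
    exact const_of_small (b := 1) (by norm_num) hV g hall (by rw [hcard]; exact hs) z w
  · right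
    have h2 : ¬ ∀ (e : Fin 3 → ZMod 5) x, diffs (List.replicate 2 e) h x = 0 := by
      intro h2
      apply hall
      intro L hL x
      exact polar (by norm_num) h h3 h2 L hL x
    push Not at h2
    obtain ⟨e, x0, hc⟩ := h2
    set c : ZMod 5 := diffs (List.replicate 2 e) h x0 with hcdef
    have hd : ∀ x, diffs (List.replicate 2 e) h x = c := by
      intro z
      have h4 := h3 ((z - x0) :: List.replicate 2 e) (by simp) x0
      simp only [Pool.Agent.H16.RB.diffs] at h4
      rw [add_sub_cancel] at h4
      exact sub_eq_zero.mp h4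
    have hee : ∀ x, h (x + e + e) = 2 * h (x + e) - h x + c := by
      intro x
      have h4 := hd x
      simp only [List.replicate, Pool.Agent.H16.RB.diffs] at h4
      linear_combination h4
    set B : (Fin 3 → ZMod 5) → ZMod 5 := fun x => h (x + e) - h x - 3 * c with hB
    have hB3 : ∀ x v w, B (x + v + w) - B (x + v) - B (x + w) + B x = 0 := by
      intro x v w
      have h4 := h3 [v, w, e] rfl x
      simp only [Pool.Agent.H16.RB.diffs] at h4
      have e1 : x + v + w = x + v + w := rfl
      simp only [hB]
      linear_combination h4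
    have h5 : (5 : ZMod 5) = 0 := rfl
    have l1 : ∀ x, h (x + e) = h x + B x + 3 * c := by
      intro x
      simp only [hB]; ring
    have l2 : ∀ x, h (x + e + e) = h x + 2 * B x + 12 * c := by
      intro x
      rw [hee]
      simp only [hB]
      linear_combination (-c) * h5
    have l3 : ∀ x, h (x + e + e + e) = h x + 3 * B x + 27 * c := by
      intro x
      rw [hee (x + e), hee x]
      simp only [hB]
      linear_combination (-3 * c) * h5
    have l4 : ∀ x, h (x + e + e + e + e) = h x + 4 * B x + 48 * c := by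
      intro x
      rw [hee (x + e + e), hee (x + e), hee x]
      simp only [hB]
      linear_combination (-6 * c) * h5
    have hval : ∀ z, (h z).val ≤ g z := by
      intro z
      simp only [hh]
      rw [ZMod.val_natCast]
      exact Nat.mod_le _ _
    have hline : ∀ x, 5 ≤ g x + g (x + e) + g (x + e + e) + g (x + e + e + e) +
        g (x + e + e + e + e) := by
      intro x
      have d := dec1 (h x) (B x) c hc
      rw [← l1, ← l2, ← l3, ← l4] at d
      have := hval x
      have := hval (x + e)
      have := hval (x + e + e)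
      have := hval (x + e + e + e)
      have := hval (x + e + e + e + e)
      omega
    have hshift : ∀ v, ∑ x, g (x + v) = ∑ x, g x := fun v =>
      Equiv.sum_comp (Equiv.addRight v) g
    have hsum : ∑ x, (g x + g (x + e) + g (x + e + e) + g (x + e + e + e) +
        g (x + e + e + e + e)) = 5 * ∑ x, g x := by
      simp only [sum_add_distrib]
      have e2 : ∑ x, g (x + e + e) = ∑ x, g x := by
        rw [← hshift (e + e)]; exact sum_congr rfl fun x _ => by rw [add_assoc]
      have e3 : ∑ x, g (x + e + e + e) = ∑ x, g x := by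
        rw [← hshift (e + e + e)]; exact sum_congr rfl fun x _ => by rw [← add_assoc, ← add_assoc]
      have e4 : ∑ x, g (x + e + e + e + e) = ∑ x, g x := by
        rw [← hshift (e + e + e + e)]
        exact sum_congr rfl fun x _ => by rw [← add_assoc, ← add_assoc, ← add_assoc]
      rw [hshift e, e2, e3, e4]
      ring
    have h125 : ∑ _x : Fin 3 → ZMod 5, 5 = ∑ x, (g x + g (x + e) + g (x + e + e) +
        g (x + e + e + e) + g (x + e + e + e + e)) := by
      apply le_antisymm (sum_le_sum fun x _ => hline x)
      rw [hsum, sum_const, card_univ, hcard, smul_eq_mul]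
      omega
    have heq : ∀ x, g x + g (x + e) + g (x + e + e) + g (x + e + e + e) +
        g (x + e + e + e + e) = 5 := fun x =>
      ((sum_eq_sum_iff_of_le fun x _ => hline x).mp h125 x (mem_univ x)).symm
    have hres : ∀ x, g x = (mm c + 3 * c ^ 3 * B x ^ 2).val := by
      intro x
      have d := dec1 (h x) (B x) c hc
      have d2 := dec2 (h x) (B x) c hc
      rw [← l1, ← l2, ← l3, ← l4] at d d2
      have v0 := hval x
      have v1 := hval (x + e)
      have v2 := hval (x + e + e)
      have v3 := hval (x + e + e + e)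
      have v4 := hval (x + e + e + e + e)
      have h6 := heq x
      rw [← d2 (by omega)]
      omega
    refine ⟨AddMonoidHom.mk' (fun v => B v - B 0) (fun v w => ?_), c, B 0, e, hc, ?_, ?_⟩
    · have h7 := hB3 0 v w
      rw [zero_add, zero_add] at h7
      linear_combination h7
    · show B e - B 0 ≠ 0
      have h8 : B e - B 0 = c := by
        have h9 := hee 0
        simp only [hB, zero_add] at h9 ⊢
        linear_combination h9
      rw [h8]
      exact hc
    · intro z
      rw [hres z]
      show _ = (mm c + 3 * c ^ 3 * (B 0 + (B z - B 0)) ^ 2).val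
      rw [add_sub_cancel]

theorem class5 {X G : Type*} [AddCommGroup G] (y : X → G) (S : Finset X) (hK : Kills 5 y S 10)
    (hS : S.card ≤ 5 ^ 3) (hn : ¬ HasPlane y S) : PushC 5 3 y S := by
  have : Fact (Nat.Prime 5) := ⟨Nat.prime_five⟩
  intro τ
  have hkill : ∀ L : List (((Fin 3 → ZMod 5) →+ ZMod 5) × ZMod 5),
      L.length < 10 →
      ∑ z, (((S.filter fun x => ∀ i, τ i (y x) = z i).card : ℕ) : ZMod 5) *
        (L.map fun l => l.1 z - l.2).prod = 0 := by
    intro L hL
    rw [cl_sum_eq y S τ (fun z => (L.map fun l => l.1 z - l.2).prod)]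
    have h := hK (L.map fun l => (l.1.comp (AddMonoidHom.mk' (fun v : G => (fun i => τ i v))
      (fun a b => by funext i; simp)), l.2)) (by rw [List.length_map]; exact hL)
    rw [← h]
    refine Finset.sum_congr rfl fun x _ => ?_
    rw [List.map_map]
    rfl
  have hdiff : ∀ L : List (Fin 3 → ZMod 5), L.length = 3 → ∀ x,
      diffs L (fun z => (((S.filter fun x => ∀ i, τ i (y x) = z i).card : ℕ) : ZMod 5)) x = 0 := by
    intro L hL x
    exact deg_of_kills (n := 10) (b := 2) (by norm_num) _ hkill L hL x
  have hsum : ∑ z : Fin 3 → ZMod 5, (S.filter fun x => ∀ i, τ i (y x) = z i).card = S.card :=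
    cl_card_eq y S τ
  have hcard : Fintype.card (Fin 3 → ZMod 5) = 125 := by
    rw [Fintype.card_fun, ZMod.card, Fintype.card_fin]
    norm_num
  rcases core (fun z => (S.filter fun x => ∀ i, τ i (y x) = z i).card) hdiff
    (by rw [hsum]; exact hS) with hconst | ⟨lam, c, b0, e, hc, he, hg⟩
  · by_cases h0 : (((S.filter fun x => ∀ i, τ i (y x) = (0 : Fin 3 → ZMod 5) i).card : ℕ) :
        ZMod 5) = 0
    · left
      intro z
      have h : (((S.filter fun x => ∀ i, τ i (y x) = z i).card : ℕ) : ZMod 5) =
          (((S.filter fun x => ∀ i, τ i (y x) = (0 : Fin 3 → ZMod 5) i).card : ℕ) : ZMod 5) := hconst z 0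
      rw [h0] at h
      exact (ZMod.natCast_eq_zero_iff _ _).mp h
    · right
      have hpos : ∀ z : Fin 3 → ZMod 5, 1 ≤ (S.filter fun x => ∀ i, τ i (y x) = z i).card := by
        intro z
        rcases Nat.eq_zero_or_pos (S.filter fun x => ∀ i, τ i (y x) = z i).card with h | h
        · exfalso
          apply h0
          have h' : (((S.filter fun x => ∀ i, τ i (y x) = z i).card : ℕ) : ZMod 5) =
            (((S.filter fun x => ∀ i, τ i (y x) = (0 : Fin 3 → ZMod 5) i).card : ℕ) : ZMod 5) :=
            hconst z 0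
          rw [← h', h, Nat.cast_zero]
        · exact h
      have hle : 5 ^ 3 ≤ S.card := by
        rw [← hsum]
        calc 5 ^ 3 = ∑ _z : Fin 3 → ZMod 5, 1 := by simp [hcard]
          _ ≤ _ := Finset.sum_le_sum fun z _ => hpos z
      have heq : S.card = 5 ^ 3 := le_antisymm hS hle
      refine ⟨heq, fun z => ?_⟩
      have h1 : ∑ _z : Fin 3 → ZMod 5, 1 =
          ∑ z : Fin 3 → ZMod 5, (S.filter fun x => ∀ i, τ i (y x) = z i).card := by
        rw [hsum, heq]; simp [hcard]
      exact ((Finset.sum_eq_sum_iff_of_le fun z _ => hpos z).mp h1 z (Finset.mem_univ z)).symm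
  · exfalso
    apply hn
    obtain ⟨u1, u2, u3, h12, h13, hu1, hu⟩ := dec3 c hc
    -- coordinates
    have hlam : ∀ z, lam z = ∑ i, z i * lam (Pi.single i 1) := by
      intro z
      have h := (lam.toZModLinearMap 5).pi_apply_eq_sum_univ z
      rw [AddMonoidHom.coe_toZModLinearMap] at h
      rw [h]
      refine sum_congr rfl fun i _ => ?_
      rw [smul_eq_mul]
      have h2 : (fun j : Fin 3 => if i = j then (1 : ZMod 5) else 0) = Pi.single i 1 := by
        funext j
        rw [Pi.single_apply]
        by_cases hij : i = j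
        · rw [if_pos hij, if_pos hij.symm]
        · rw [if_neg hij, if_neg fun h => hij h.symm]
      rw [h2]
    obtain ⟨i, hi⟩ : ∃ i, lam (Pi.single i 1) ≠ 0 := by
      by_contra hcon
      push Not at hcon
      apply he
      rw [hlam]
      exact sum_eq_zero fun i _ => by rw [hcon i, mul_zero]
    obtain ⟨j, k, hij, hik, hjk, hall⟩ : ∃ j k : Fin 3, i ≠ j ∧ i ≠ k ∧ j ≠ k ∧
        ∀ m : Fin 3, m = i ∨ m = j ∨ m = k := by
      clear hi
      revert i
      decide
    have huniv : (univ : Finset (Fin 3)) = {i, j, k} := by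
      ext m
      simp only [mem_univ, mem_insert, mem_singleton, true_iff]
      exact hall m
    have hlam3 : ∀ z, lam z = z i * lam (Pi.single i 1) + z j * lam (Pi.single j 1) +
        z k * lam (Pi.single k 1) := by
      intro z
      rw [hlam, huniv, sum_insert (by simp [hij, hik]), sum_insert (by simp [hjk]), sum_singleton]
      ring
    refine ⟨lam.comp (AddMonoidHom.mk' (fun v : G => (fun i => τ i v))
      (fun a b => by funext i; simp)), τ j, τ k, u1 - b0, u2 - b0, u3 - b0, ?_, ?_, ?_, ?_⟩
    · intro h; exact h12 (sub_left_injective h)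
    · intro h; exact h13 (sub_left_injective h)
    · intro x hx
      have hgz : (S.filter fun x' => ∀ i, τ i (y x') = τ i (y x)).card =
        (mm c + 3 * c ^ 3 * (b0 + lam fun i => τ i (y x)) ^ 2).val := hg fun i => τ i (y x)
      have hpos : 0 < (S.filter fun x' => ∀ i, τ i (y x') = τ i (y x)).card :=
        card_pos.2 ⟨x, mem_filter.2 ⟨hx, fun i => rfl⟩⟩
      rw [hgz] at hpos
      have hne : mm c + 3 * c ^ 3 * (b0 + lam fun i => τ i (y x)) ^ 2 ≠ 0 := by
        intro h
        rw [h, ZMod.val_zero] at hpos
        exact absurd hpos (lt_irrefl 0)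
      show lam (fun i => τ i (y x)) = u1 - b0 ∨ lam (fun i => τ i (y x)) = u2 - b0 ∨
        lam (fun i => τ i (y x)) = u3 - b0
      rcases hu _ hne with h | h | h
      · left; rw [← h]; ring
      · right; left; rw [← h]; ring
      · right; right; rw [← h]; ring
    · intro s t
      set r : ZMod 5 := (u1 - b0 - s * lam (Pi.single j 1) - t * lam (Pi.single k 1)) *
        (lam (Pi.single i 1))⁻¹ with hr
      have hr' : r * lam (Pi.single i 1) =
          u1 - b0 - s * lam (Pi.single j 1) - t * lam (Pi.single k 1) := by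
        rw [hr, mul_assoc, inv_mul_cancel₀ hi, mul_one]
      set z : Fin 3 → ZMod 5 := fun m => if m = i then r else if m = j then s else t with hz
      have hzi : z i = r := by simp [hz]
      have hzj : z j = s := by simp [hz, hij.symm]
      have hzk : z k = t := by simp [hz, hik.symm, hjk.symm]
      have hlz : lam z = u1 - b0 := by
        rw [hlam3, hzi, hzj, hzk, hr']
        ring
      have hgz : (S.filter fun x => ∀ i, τ i (y x) = z i).card =
        (mm c + 3 * c ^ 3 * (b0 + lam z) ^ 2).val := hg z
      have hone : mm c + 3 * c ^ 3 * (b0 + lam z) ^ 2 = 1 := by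
        rw [hlz, show b0 + (u1 - b0) = u1 by ring]
        exact hu1
      have hval1 : (1 : ZMod 5).val = 1 := rfl
      have hgz1 : (S.filter fun x => ∀ i, τ i (y x) = z i).card = 1 := by
        rw [hgz, hone, hval1]
      refine Eq.trans (congrArg Finset.card (Finset.ext fun x => ?_)) hgz1
      rw [mem_filter, mem_filter]
      refine and_congr_right fun _ => ?_
      constructor
      · rintro ⟨h1, h2, h3⟩ m
        have h1' : lam (fun i => τ i (y x)) = u1 - b0 := h1
        rw [hlam3] at h1'
        have h1'' : τ i (y x) * lam (Pi.single i 1) + τ j (y x) * lam (Pi.single j 1) +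
          τ k (y x) * lam (Pi.single k 1) = u1 - b0 := h1'
        rw [h2, h3] at h1''
        have h4 : τ i (y x) = r := by
          have h5 : τ i (y x) * lam (Pi.single i 1) = r * lam (Pi.single i 1) := by
            rw [hr']; linear_combination h1''
          exact mul_right_cancel₀ hi h5
        rcases hall m with rfl | rfl | rfl
        · rw [hzi, h4]
        · rw [hzj, h2]
        · rw [hzk, h3]
      · intro h
        refine ⟨?_, by rw [h, hzj], by rw [h, hzk]⟩
        show lam (fun i => τ i (y x)) = u1 - b0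
        rw [← hlz, show (fun i => τ i (y x)) = z from funext fun m => h m]

end Pool.Agent.H88.T56
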