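import Pool.Agent.H88.T56.Defs

/-!
# T56 module Quad: functions on `F_5 ^ 2` killing polynomials of degree at most `5`

`quad`: `(if z = y then 1 else 0) = 1 - (y - z) ^ 4 = ∑ i < 5, y ^ i * k_i z` with `k_0 z = 1 - z ^ 4`, `k_i z = - z ^ (4 - i)` (decide), so `φ y1 y2 = ∑ i j, c_ij y1 ^ i y2 ^ j` with
`c_ij = ∑ z, φ z * k_i z1 * k_j z2`, which is `0` for `i + j ≥ 3`.
`cube`: for fixed `y2`: `∑ y1, (u + y1 v) ^ 3 * y1 = - v ^ 3` (decide over `u`, `v`), with `v = β y2 + δ1`; then once more for the sum over `y2`: the sum is `β ^ 3`.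
-/

set_option autoImplicit false

namespace Pool.Agent.H88.T56

open Finset

theorem quad (φ : ZMod 5 → ZMod 5 → ZMod 5)
    (h : ∀ i j : ℕ, i + j ≤ 5 → ∑ s, ∑ t, φ s t * (s ^ i * t ^ j) = 0) :
    ∃ α β γ δ1 δ2 ε : ZMod 5, ∀ s t,
      φ s t = α * s ^ 2 + β * (s * t) + γ * t ^ 2 + δ1 * s + δ2 * t + ε := by
  have key : ∀ y s : ZMod 5, ∑ i ∈ range 5,
      (if i = 0 then 1 - y ^ 4 else -y ^ (4 - i)) * s ^ i = if s = y then 1 else 0 := by
    decide
  set a : ZMod 5 → ℕ → ZMod 5 := fun y i => if i = 0 then 1 - y ^ 4 else -y ^ (4 - i) with ha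
  set M : ℕ → ℕ → ZMod 5 := fun i j => ∑ s, ∑ t, φ s t * (s ^ i * t ^ j) with hM
  have expand : ∀ y z : ZMod 5,
      φ y z = ∑ i ∈ range 5, ∑ j ∈ range 5, a y i * a z j * M i j := by
    intro y z
    calc φ y z = ∑ s, ∑ t, φ s t * ((if s = y then 1 else 0) * (if t = z then 1 else 0)) := by
          simp
      _ = ∑ s, ∑ t, φ s t *
          ((∑ i ∈ range 5, a y i * s ^ i) * (∑ j ∈ range 5, a z j * t ^ j)) := by
          refine sum_congr rfl fun s _ => sum_congr rfl fun t _ => ?_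
          rw [← key y s, ← key z t]
      _ = ∑ s, ∑ t, ∑ i ∈ range 5, ∑ j ∈ range 5,
          a y i * a z j * (φ s t * (s ^ i * t ^ j)) := by
          refine sum_congr rfl fun s _ => sum_congr rfl fun t _ => ?_
          rw [sum_mul_sum, mul_sum]
          refine sum_congr rfl fun i _ => ?_
          rw [mul_sum]
          refine sum_congr rfl fun j _ => ?_
          ring
      _ = ∑ i ∈ range 5, ∑ j ∈ range 5, a y i * a z j * M i j := by
          have e1 : ∀ s : ZMod 5, ∑ t, ∑ i ∈ range 5, ∑ j ∈ range 5,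
              a y i * a z j * (φ s t * (s ^ i * t ^ j)) =
              ∑ i ∈ range 5, ∑ j ∈ range 5, ∑ t,
              a y i * a z j * (φ s t * (s ^ i * t ^ j)) := by
            intro s
            rw [sum_comm]
            exact sum_congr rfl fun i _ => sum_comm
          rw [sum_congr rfl fun s _ => e1 s, sum_comm]
          refine sum_congr rfl fun i _ => ?_
          rw [sum_comm]
          refine sum_congr rfl fun j _ => ?_
          simp only [hM, mul_sum]
  have hz : ∀ i j : ℕ, i + j ≤ 5 → M i j = 0 := h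
  refine ⟨M 2 4, M 3 3, M 4 2, M 3 4, M 4 3, M 4 4, fun s t => ?_⟩
  rw [expand s t]
  simp only [sum_range_succ, sum_range_zero]
  rw [hz 0 0 (by norm_num), hz 0 1 (by norm_num), hz 0 2 (by norm_num), hz 0 3 (by norm_num),
    hz 0 4 (by norm_num), hz 1 0 (by norm_num), hz 1 1 (by norm_num), hz 1 2 (by norm_num),
    hz 1 3 (by norm_num), hz 1 4 (by norm_num), hz 2 0 (by norm_num), hz 2 1 (by norm_num),
    hz 2 2 (by norm_num), hz 2 3 (by norm_num), hz 3 0 (by norm_num), hz 3 1 (by norm_num),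
    hz 3 2 (by norm_num), hz 4 0 (by norm_num), hz 4 1 (by norm_num)]
  simp only [ha]
  norm_num
  ring

theorem cube (β γ δ1 δ2 ε : ZMod 5) (φ : ZMod 5 → ZMod 5 → ZMod 5)
    (hφ : ∀ s t, φ s t = β * (s * t) + γ * t ^ 2 + δ1 * s + δ2 * t + ε)
    (h : ∑ s, ∑ t, φ s t ^ 3 * (s * t) = 0) : β = 0 := by
  have k1 : ∀ u v : ZMod 5, ∑ s : ZMod 5, (u + s * v) ^ 3 * s = -v ^ 3 := by decide
  have k2 : ∀ b d : ZMod 5, ∑ t : ZMod 5, -(b * t + d) ^ 3 * t = b ^ 3 := by decide
  have k3 : ∀ b : ZMod 5, b ^ 3 = 0 → b = 0 := by decide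
  rw [sum_comm] at h
  have e : ∀ t : ZMod 5, ∑ s, φ s t ^ 3 * (s * t) = -(β * t + δ1) ^ 3 * t := by
    intro t
    rw [← k1 (γ * t ^ 2 + δ2 * t + ε) (β * t + δ1), sum_mul]
    refine sum_congr rfl fun s _ => ?_
    rw [hφ s t]
    ring
  rw [sum_congr rfl fun t _ => e t, k2] at h
  exact k3 β h

end Pool.Agent.H88.T56
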