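import Pool.Agent.H88.T56.Top
import Pool.Agent.H88.T56.Quad

/-!
# T56 module Plane: slices have no plane

Suppose `HasPlane`.  For `s`, `t` let `x s t` be the point of `F = {x ∈ S | l = c1}` over `(s, t)`.  For `w : H → ZMod 5`: `∑ x ∈ S, w x * (l - c2) * (l - c3) = (c1 - c2) (c1 - c3) ∑ s, ∑ t, w (x s t)`.
`φ a s t = ph a (gr f (x s t) - g0)`.  `top_kills` with `b = 1` and `(l, c2) :: (l, c3) :: i copies of (μ1, 0), j copies of (μ2, 0)`, `i + j ≤ 5`: `quad` applies to `φ a`.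
`A a = ph a (B11)`, `B a = ph a (B12)`, where `B11 = g(2,0) - 2 g(1,0) + g(0,0)`, `B12 = g(1,1) - g(1,0) - g(0,1) + g(0,0)`, `g(s,t) = gr f (x s t)`: `A a = 2 α`, `B a = β` (`ph_add`, `ph_sub`), both additive in `a` (`ph_add_hom`).
`top_kills` with `b = 3` and `(l, c2), (l, c3), (μ1, 0), (μ2, 0)` and `cube`: `A a = 0 → B a = 0`.  Hence there is `t` with `B a = t * A a` for all `a` (`t = B a1 / A a1` for some `a1` with `A a1 ≠ 0`, apply the last statement to `a - n a1`).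
Then `E = g(1-t,1) - g(-t,1) - g(1,0) + g(0,0)` has `ph a E = β - 2 t α = 0` for all `a`, so `E = 0` (`sep25`, `ph_eq_zero`), and planarity gives `x (1-t) 1 = x 1 0`, but `μ2` is `1` and `0` there.
-/

set_option autoImplicit false

namespace Pool.Agent.H88.T56

open Finset Pool.Agent.H88.Pl Pool.Agent.H16.RB
open scoped Classical

variable {H K : Type*} [AddCommGroup H] [AddCommGroup K] [Fintype H] [Fintype K]

private theorem Plane_fact5 : Fact (Nat.Prime 5) := ⟨by norm_num⟩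

private theorem Plane_two : (2 : ZMod 5) ≠ 0 := by decide

private theorem Plane_one : (0 : ZMod 5) ≠ 1 := by decide

/-- two additive functions, the second vanishing where the first does -/
private theorem Plane_lin {A' : Type*} [AddCommGroup A'] (A B : A' →+ ZMod 5)
    (h : ∀ a, A a = 0 → B a = 0) : ∃ t : ZMod 5, ∀ a, B a = t * A a := by
  have := Plane_fact5
  by_cases h0 : ∀ a, A a = 0
  · exact ⟨0, fun a => by rw [h a (h0 a), zero_mul]⟩
  · push Not at h0
    obtain ⟨a1, ha1⟩ := h0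
    refine ⟨B a1 / A a1, fun a => ?_⟩
    obtain ⟨m, hm⟩ : ∃ m : ℕ, (m : ZMod 5) = -(A a / A a1) :=
      ⟨(-(A a / A a1)).val, ZMod.natCast_zmod_val _⟩
    have h1 : A (a + m • a1) = 0 := by
      rw [map_add, map_nsmul, nsmul_eq_mul, hm]
      field_simp
      ring
    have h2 := h _ h1
    rw [map_add, map_nsmul, nsmul_eq_mul, hm] at h2
    have h3 : B a = A a / A a1 * B a1 := by linear_combination h2
    rw [h3]
    ring

theorem no_plane (hH : Fintype.card H = 5 ^ 6) (hK : Fintype.card K = 5 ^ 6) (f : H → K)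
    (hf : IsPlanar f) (h25 : ∀ g : H × K, 25 • g = 0)
    (hP : Nat.card (Set.range fun g : H × K => 5 • g) = 5 ^ 3) (g0 : H × K) :
    ¬ HasPlane (gr f) (sl 5 f (5 • g0)) := by
  have := Plane_fact5
  rintro ⟨l, μ1, μ2, c1, c2, c3, h12, h13, hv, hone⟩
  have hne : (c1 - c2) * (c1 - c3) ≠ 0 := mul_ne_zero (sub_ne_zero.2 h12) (sub_ne_zero.2 h13)
  have hex : ∀ s t : ZMod 5, ∃ x : H, (sl 5 f (5 • g0)).filter
      (fun x => l (gr f x) = c1 ∧ μ1 (gr f x) = s ∧ μ2 (gr f x) = t) = {x} := fun s t =>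
    Finset.card_eq_one.1 (hone s t)
  choose X hX using hex
  have hXm : ∀ s t, X s t ∈ sl 5 f (5 • g0) ∧ l (gr f (X s t)) = c1 ∧ μ1 (gr f (X s t)) = s ∧
      μ2 (gr f (X s t)) = t := by
    intro s t
    have h : X s t ∈ (sl 5 f (5 • g0)).filter
        (fun x => l (gr f x) = c1 ∧ μ1 (gr f x) = s ∧ μ2 (gr f x) = t) := by
      rw [hX s t]
      exact mem_singleton_self _
    exact mem_filter.1 h
  have hXu : ∀ x ∈ sl 5 f (5 • g0), l (gr f x) = c1 → X (μ1 (gr f x)) (μ2 (gr f x)) = x := by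
    intro x hx hl
    have h : x ∈ (sl 5 f (5 • g0)).filter
        (fun x' => l (gr f x') = c1 ∧ μ1 (gr f x') = μ1 (gr f x) ∧ μ2 (gr f x') = μ2 (gr f x)) :=
      mem_filter.2 ⟨hx, hl, rfl, rfl⟩
    rw [hX] at h
    exact (mem_singleton.1 h).symm
  -- the sum over the plane
  have hsum : ∀ w : H → ZMod 5, ∑ x ∈ sl 5 f (5 • g0), w x * ((l (gr f x) - c2) * (l (gr f x) - c3)) =
      (c1 - c2) * (c1 - c3) * ∑ s, ∑ t, w (X s t) := by
    intro w
    have h1 : ∑ x ∈ sl 5 f (5 • g0), w x * ((l (gr f x) - c2) * (l (gr f x) - c3)) =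
        ∑ x ∈ (sl 5 f (5 • g0)).filter (fun x => l (gr f x) = c1),
          w x * ((c1 - c2) * (c1 - c3)) := by
      rw [Finset.sum_filter]
      refine Finset.sum_congr rfl fun x hx => ?_
      by_cases h : l (gr f x) = c1
      · rw [if_pos h, h]
      · rw [if_neg h]
        rcases hv x hx with h' | h' | h'
        · exact absurd h' h
        · rw [h', sub_self, zero_mul, mul_zero]
        · rw [h', sub_self, mul_zero, mul_zero]
    rw [h1, ← Finset.sum_mul, mul_comm]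
    congr 1
    rw [← Finset.sum_product' univ univ (fun s t => w (X s t))]
    refine Finset.sum_nbij' (fun x => (μ1 (gr f x), μ2 (gr f x))) (fun z => X z.1 z.2) ?_ ?_ ?_ ?_ ?_
    · intro x _
      exact mem_product.2 ⟨mem_univ _, mem_univ _⟩
    · intro z _
      exact mem_filter.2 ⟨(hXm z.1 z.2).1, (hXm z.1 z.2).2.1⟩
    · intro x hx
      obtain ⟨h1, h2⟩ := mem_filter.1 hx
      exact hXu x h1 h2
    · intro z _
      exact Prod.ext (hXm z.1 z.2).2.2.1 (hXm z.1 z.2).2.2.2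
    · intro x hx
      obtain ⟨h1, h2⟩ := mem_filter.1 hx
      rw [hXu x h1 h2]
  -- the differences
  obtain ⟨d, hd⟩ : ∃ d : ZMod 5 → ZMod 5 → H × K, d = fun s t => gr f (X s t) - g0 := ⟨_, rfl⟩
  have hd5 : ∀ s t, 5 • d s t = 0 := by
    intro s t
    have h := (mem_filter.1 (hXm s t).1).2
    rw [hd]
    simp only
    rw [smul_sub, h, sub_self]
  -- the kills
  have hkill : ∀ (a : H × K →+ ZMod 25) (b : ℕ), b ≤ 3 → ∀ i j : ℕ,
      12 + 9 * b + 5 * (2 + i + j) < 60 → ∑ s, ∑ t, ph a (d s t) ^ b * (s ^ i * t ^ j) = 0 := by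
    intro a b hb i j hij
    have h := top_kills hH hK f hf h25 hP a g0 b hb
      ((l, c2) :: (l, c3) :: (List.replicate i (μ1, 0) ++ List.replicate j (μ2, 0))) (by
        simp only [List.length_cons, List.length_append, List.length_replicate]
        omega)
    simp only [List.map_cons, List.prod_cons, List.map_append, List.prod_append,
      List.map_replicate, List.prod_replicate, sub_zero] at h
    have h1 := hsum fun x => ph a (gr f x - g0) ^ b * (μ1 (gr f x) ^ i * μ2 (gr f x) ^ j)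
    have h2 : ∑ x ∈ sl 5 f (5 • g0), ph a (gr f x - g0) ^ b * (μ1 (gr f x) ^ i * μ2 (gr f x) ^ j) *
        ((l (gr f x) - c2) * (l (gr f x) - c3)) = 0 := by
      rw [← h]
      refine Finset.sum_congr rfl fun x _ => ?_
      ring
    rw [h2] at h1
    have h3 := (mul_eq_zero.1 h1.symm).resolve_left hne
    rw [← h3]
    refine Finset.sum_congr rfl fun s _ => Finset.sum_congr rfl fun t _ => ?_
    rw [(hXm s t).2.2.1, (hXm s t).2.2.2, hd]
  have hquad : ∀ a : H × K →+ ZMod 25, ∃ α β γ δ1 δ2 ε : ZMod 5, ∀ s t,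
      ph a (d s t) = α * s ^ 2 + β * (s * t) + γ * t ^ 2 + δ1 * s + δ2 * t + ε := by
    intro a
    refine quad (fun s t => ph a (d s t)) fun i j hij => ?_
    have h := hkill a 1 (by norm_num) i j (by omega)
    simpa only [pow_one] using h
  have hcube : ∀ a : H × K →+ ZMod 25, ∑ s, ∑ t, ph a (d s t) ^ 3 * (s * t) = 0 := by
    intro a
    have h := hkill a 3 le_rfl 1 1 (by norm_num)
    simpa only [pow_one] using h
  -- the two second differences
  obtain ⟨B11, hB11⟩ : ∃ B11 : H × K, B11 = (d 2 0 - d 1 0) - (d 1 0 - d 0 0) := ⟨_, rfl⟩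
  obtain ⟨B12, hB12⟩ : ∃ B12 : H × K, B12 = (d 1 1 - d 1 0) - (d 0 1 - d 0 0) := ⟨_, rfl⟩
  have hs5 : ∀ u v : H × K, 5 • u = 0 → 5 • v = 0 → 5 • (u - v) = 0 := by
    intro u v hu hv
    rw [smul_sub, hu, hv, sub_self]
  have h5B11 : 5 • B11 = 0 := by
    rw [hB11]
    exact hs5 _ _ (hs5 _ _ (hd5 _ _) (hd5 _ _)) (hs5 _ _ (hd5 _ _) (hd5 _ _))
  have h5B12 : 5 • B12 = 0 := by
    rw [hB12]
    exact hs5 _ _ (hs5 _ _ (hd5 _ _) (hd5 _ _)) (hs5 _ _ (hd5 _ _) (hd5 _ _))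
  have hph4 : ∀ (a : H × K →+ ZMod 25) (u1 u2 u3 u4 : H × K), 5 • u1 = 0 → 5 • u2 = 0 → 5 • u3 = 0 →
      5 • u4 = 0 → ph a ((u1 - u2) - (u3 - u4)) = ph a u1 - ph a u2 - ph a u3 + ph a u4 := by
    intro a u1 u2 u3 u4 h1 h2 h3 h4
    rw [ph_sub a _ _ (hs5 _ _ h1 h2) (hs5 _ _ h3 h4), ph_sub a _ _ h1 h2, ph_sub a _ _ h3 h4]
    ring
  obtain ⟨t, ht⟩ := Plane_lin
    (AddMonoidHom.mk' (fun a : H × K →+ ZMod 25 => ph a B11) fun a b => ph_add_hom a b B11 h5B11)
    (AddMonoidHom.mk' (fun a : H × K →+ ZMod 25 => ph a B12) fun a b => ph_add_hom a b B12 h5B12)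
    (by
      intro a ha
      simp only [AddMonoidHom.mk'_apply] at ha ⊢
      obtain ⟨α, β, γ, δ1, δ2, ε, hq⟩ := hquad a
      have h1 : ph a B11 = 2 * α := by
        rw [hB11, hph4 a _ _ _ _ (hd5 _ _) (hd5 _ _) (hd5 _ _) (hd5 _ _), hq, hq, hq]
        ring
      have h2 : ph a B12 = β := by
        rw [hB12, hph4 a _ _ _ _ (hd5 _ _) (hd5 _ _) (hd5 _ _) (hd5 _ _), hq, hq, hq, hq]
        ring
      rw [h1] at ha
      have hα : α = 0 := (mul_eq_zero.1 ha).resolve_left Plane_two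
      rw [h2]
      refine cube β γ δ1 δ2 ε (fun s t => ph a (d s t)) (fun s t => ?_) (hcube a)
      rw [hq, hα]
      ring)
  simp only [AddMonoidHom.mk'_apply] at ht
  have hE : (d (1 - t) 1 - d (-t) 1) - (d 1 0 - d 0 0) = 0 := by
    by_contra hE
    obtain ⟨a, ha⟩ := sep25 h25 _ hE
    apply ha
    refine ph_eq_zero a _ ?_ ?_
    · exact hs5 _ _ (hs5 _ _ (hd5 _ _) (hd5 _ _)) (hs5 _ _ (hd5 _ _) (hd5 _ _))
    · obtain ⟨α, β, γ, δ1, δ2, ε, hq⟩ := hquad a
      have h1 : ph a B11 = 2 * α := by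
        rw [hB11, hph4 a _ _ _ _ (hd5 _ _) (hd5 _ _) (hd5 _ _) (hd5 _ _), hq, hq, hq]
        ring
      have h2 : ph a B12 = β := by
        rw [hB12, hph4 a _ _ _ _ (hd5 _ _) (hd5 _ _) (hd5 _ _) (hd5 _ _), hq, hq, hq, hq]
        ring
      have h3 := ht a
      rw [h1, h2] at h3
      rw [hph4 a _ _ _ _ (hd5 _ _) (hd5 _ _) (hd5 _ _) (hd5 _ _), hq, hq, hq, hq, h3]
      ring
  -- planarity
  have hE2 : gr f (X (1 - t) 1) - gr f (X (-t) 1) = gr f (X 1 0) - gr f (X 0 0) := by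
    rw [hd] at hE
    simp only at hE
    have h := sub_eq_zero.1 hE
    simpa only [sub_sub_sub_cancel_right] using h
  have hh : X (1 - t) 1 - X (-t) 1 = X 1 0 - X 0 0 := congrArg Prod.fst hE2
  have hk : f (X (1 - t) 1) - f (X (-t) 1) = f (X 1 0) - f (X 0 0) := congrArg Prod.snd hE2
  have hne0 : X 1 0 - X 0 0 ≠ 0 := by
    intro h
    have h1 : X 1 0 = X 0 0 := sub_eq_zero.1 h
    have h2 := (hXm 1 0).2.2.1
    rw [h1, (hXm 0 0).2.2.1] at h2
    exact Plane_one h2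
  have hinj := (hf _ hne0).1
  have h1 : X (-t) 1 = X 0 0 := by
    apply hinj
    simp only
    rw [sub_add_cancel, ← hk, ← hh, sub_add_cancel]
  have h2 := (hXm (-t) 1).2.2.2
  rw [h1, (hXm 0 0).2.2.2] at h2
  exact Plane_one h2

end Pool.Agent.H88.T56
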