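import Pool.Agent.H88.T56.Half
import Pool.Agent.H88.T56.Plane
import Pool.Agent.H88.T56.Class
import Pool.Agent.H38.T35.Main

/-!
# T56 Main: Q1 for order `5 ^ 6` and the small orders
-/

set_option autoImplicit false

namespace Pool.Agent.H88.T56

open Finset Pool.Agent.H16.RB Pool.Agent.H88.Pl Pool.Agent.H38.RX
open scoped Classical

variable {H K : Type*} [AddCommGroup H] [AddCommGroup K]

private theorem pc5 [Fintype H] [Fintype K] (hH : Fintype.card H = 5 ^ 6)
    (hK : Fintype.card K = 5 ^ 6) (f : H → K) (hf : IsPlanar f) (h25 : ∀ g : H × K, 25 • g = 0)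
    (hP : Nat.card (Set.range fun g : H × K => 5 • g) = 5 ^ 3) (v : H × K) (hv : v ∈ PG 5 H K)
    (hc : (sl 5 f v).card ≤ 5 ^ 3) : PushC 5 3 (gr f) (sl 5 f v) := by
  have : Fact (Nat.Prime 5) := ⟨Nat.prime_five⟩
  obtain ⟨w, -, rfl⟩ := mem_image.1 hv
  refine class5 (gr f) _ ?_ hc (no_plane hH hK f hf h25 hP w)
  exact sl_kills (p := 5) (r := 6) (κ := 3) (by norm_num) hH hK f hf (by norm_num) hP
    (by norm_num) w

/-- Q1 for order `5 ^ 6` -/
theorem q1_15625 (hH : Nat.card H = 5 ^ 6) (hK : Nat.card K = 5 ^ 6) (f : H → K)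
    (hf : IsPlanar f) (g : H × K) : 5 • g = 0 := by
  have hp5 : Fact (Nat.Prime 5) := ⟨Nat.prime_five⟩
  have : Finite H := Nat.finite_of_card_ne_zero (by rw [hH]; norm_num)
  have : Finite K := Nat.finite_of_card_ne_zero (by rw [hK]; norm_num)
  have := Fintype.ofFinite H
  have := Fintype.ofFinite K
  by_contra hg
  have hG : Nat.card (H × K) = 5 ^ (2 * 6) := by
    rw [Nat.card_prod, hH, hK, ← pow_add]
  obtain ⟨e, -, he⟩ := (Nat.dvd_prime_pow Nat.prime_five).1
    (show AddMonoid.exponent (H × K) ∣ 5 ^ (2 * 6) by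
      rw [← hG]; exact AddGroup.exponent_dvd_nat_card)
  have he2 : 2 ≤ e := by
    by_contra hlt
    apply hg
    have h1 : AddMonoid.exponent (H × K) ∣ 5 := by
      rw [he]
      calc 5 ^ e ∣ 5 ^ 1 := pow_dvd_pow 5 (by omega)
        _ = 5 := pow_one 5
    obtain ⟨c, hc⟩ := h1
    rw [hc, mul_comm, mul_smul, AddMonoid.exponent_nsmul_eq_zero, smul_zero]
  obtain ⟨κ, hκ⟩ := card_range_pow hG
  have hB := Pool.Agent.H38.PL3.main_C (show 3 ≤ 6 by omega) he2 hH hK f hf he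
  have hsub : (Set.range fun g : H × K => 5 ^ (e - 1) • g) ⊆ Set.range fun g : H × K => 5 • g := by
    rintro _ ⟨x, rfl⟩
    refine ⟨5 ^ (e - 2) • x, ?_⟩
    show 5 • (5 ^ (e - 2) • x) = 5 ^ (e - 1) • x
    rw [smul_smul, ← pow_succ']
    congr 2
    omega
  have hle := Nat.card_mono (Set.toFinite _) hsub
  have hκ3 : 3 ≤ κ := by
    rw [hκ] at hle
    exact (Nat.pow_le_pow_iff_right (by norm_num)).1 (hB.trans hle)
  have hrb := rank_C (by norm_num : (5 : ℕ) ≠ 2) hH hK f hf (by omega) hκ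
  have hκ' : κ = 3 := by omega
  subst hκ'
  have heq : (Set.range fun g : H × K => 5 ^ (e - 1) • g) = Set.range fun g : H × K => 5 • g := by
    refine Set.eq_of_subset_of_ncard_le hsub ?_ (Set.toFinite _)
    rw [← Nat.card_coe_set_eq, ← Nat.card_coe_set_eq, hκ]
    exact hB
  have h25 : ∀ g : H × K, 25 • g = 0 := by
    intro g
    obtain ⟨x, hx⟩ : 5 • g ∈ Set.range fun g : H × K => 5 ^ (e - 1) • g := by
      rw [heq]; exact ⟨g, rfl⟩
    have h1 : 25 • g = 5 • (5 • g) := by rw [smul_smul]; norm_num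
    have hx' : 5 ^ (e - 1) • x = 5 • g := hx
    rw [h1, ← hx', smul_smul, ← pow_succ', show e - 1 + 1 = e by omega, ← he,
      AddMonoid.exponent_nsmul_eq_zero]
  have hH' : Fintype.card H = 5 ^ 6 := by rw [← Nat.card_eq_fintype_card, hH]
  have hK' : Fintype.card K = 5 ^ 6 := by rw [← Nat.card_eq_fintype_card, hK]
  obtain ⟨ha, hb⟩ := half (p := 5) (s := 3) (le_refl 5) (by norm_num) hH' hK' f hf
    (fun g => h25 g) hκ (fun v hv hc => pc5 hH' hK' f hf h25 hκ v hv hc)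
  obtain ⟨u, hu⟩ := card_range_pow (p := 5) hH
  rw [← ha, hu, ← pow_add] at hb
  have := Nat.pow_right_injective (le_refl 2 |>.trans (by norm_num : 2 ≤ 5)) hb
  omega

theorem small_orders4 {p r : ℕ} [Fact p.Prime]
    (h : r = 3 ∨ r = 4 ∨ r = 5 ∨ (5 ≤ p ∧ r = 6))
    (hH : Nat.card H = p ^ r) (hK : Nat.card K = p ^ r) (f : H → K) (hf : IsPlanar f) :
    Nonempty (H ≃+ (Fin r → ZMod p)) ∧ Nonempty (K ≃+ (Fin r → ZMod p)) := by
  have hpp : p.Prime := Fact.out
  rcases h with h | h | h | h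
  · exact Pool.Agent.H38.T35.small_orders3 (Or.inl h) hH hK f hf
  · exact Pool.Agent.H38.T35.small_orders3 (Or.inr (Or.inl h)) hH hK f hf
  · exact Pool.Agent.H38.T35.small_orders3 (Or.inr (Or.inr (Or.inl h))) hH hK f hf
  · obtain ⟨h5, rfl⟩ := h
    by_cases h7 : 7 ≤ p
    · exact Pool.Agent.H38.T35.small_orders3 (Or.inr (Or.inr (Or.inr ⟨h7, rfl⟩))) hH hK f hf
    · have hp6 : p ≠ 6 := by rintro rfl; exact absurd hpp (by norm_num)
      obtain rfl : p = 5 := by omega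
      have h1 : ∀ g : H × K, 5 • g = 0 := fun g => q1_15625 hH hK f hf g
      constructor
      · exact equiv_of_smul hH fun x => (Prod.ext_iff.1 (h1 (x, 0))).1
      · exact equiv_of_smul hK fun y => (Prod.ext_iff.1 (h1 (0, y))).2

end Pool.Agent.H88.T56
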