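import Pool.Agent.H88.T56.Cls

/-!
# T56 module Cls2 (copy of H16.RB.Cls2): families with `p ^ s` points and without collisions are flats

Sketch.  `line_closed`: `u = y x' - y x`, `T = {z ∈ S | ∃ l, l u = 0 ∧ l (y z - y x) ≠ 0}` (at most
`card S - 2` elements, as it contains neither `x` nor `x'`), `τ` from `iso`; the fibre `F` of
`τ (y x)` contains `x` and `x'`, so `p ∣ F.card` by `push_const` and `F.card ≥ p`.  Each `z ∈ F` is not in
`T`, so there is `t : ZMod p` with `l (y z - y x) = t * l u` for all `l` (take `l₀` with `l₀ u ≠ 0`, which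
exists as `x'` is not in the class of `x`, and `t = l₀ (y z - y x) / l₀ u`); `z ↦ t` is injective on `F`
by `h1`, so all `t` occur.  `aff_closed`: the cases `x = x'`, `x = x''`, `x' = x''` directly or with the
midpoint `m` of `x'`, `x''` (`line_closed` with `t = 1/2`) and then the point with `t = 2` on the line
from `x` to `m`.
-/

set_option autoImplicit false

namespace Pool.Agent.H88.T56

open Finset Pool.Agent.H16.RB

theorem line_closed {p s : ℕ} [Fact p.Prime] {X G : Type*}
    [AddCommGroup G] [Finite G] (y : X → G) (S : Finset X)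
    (hPC : PushC p s y S) (hS : S.card ≤ p ^ s)
    (h1 : ∀ x ∈ S, (cls p y S (y x)).card = 1) (x x' : X) (hx : x ∈ S) (hx' : x' ∈ S)
    (hne : x ≠ x') (t : ZMod p) :
    ∃ z ∈ S, ∀ l : G →+ ZMod p, l (y z) = l (y x) + t * (l (y x') - l (y x)) := by
  have hp0 : 0 < p := (Fact.out : p.Prime).pos
  -- a homomorphism separating `x` and `x'`
  have hsep : ∃ l₀ : G →+ ZMod p, l₀ (y x' - y x) ≠ 0 := by
    by_contra hcon
    push Not at hcon
    have hxc : x ∈ cls p y S (y x) := by
      simp [cls, hx]
    have hxc' : x' ∈ cls p y S (y x) := by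
      simp only [cls, Finset.mem_filter]
      refine ⟨hx', fun l => ?_⟩
      have := hcon l
      rw [map_sub] at this
      exact sub_eq_zero.mp this
    have h2 := h1 x hx
    rw [Finset.card_eq_one] at h2
    obtain ⟨a, ha⟩ := h2
    rw [ha] at hxc hxc'
    rw [Finset.mem_singleton] at hxc hxc'
    exact hne (hxc.trans hxc'.symm)
  obtain ⟨l₀, hl₀⟩ := hsep
  classical
  set T : Finset X := S.filter fun z => ∃ l : G →+ ZMod p, l (y x' - y x) = 0 ∧ l (y z - y x) ≠ 0
    with hT
  have hxT : x ∉ T := by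
    simp only [hT, Finset.mem_filter, not_and, not_exists]
    intro _ l hl
    simp
  have hTS : T ⊆ S.erase x := by
    intro z hz
    rw [Finset.mem_erase]
    refine ⟨?_, Finset.mem_of_mem_filter z hz⟩
    rintro rfl
    exact hxT hz
  have hTc : T.card < p ^ s := by
    have h3' := Finset.card_le_card hTS
    rw [Finset.card_erase_of_mem hx] at h3'
    have h4 : 0 < S.card := Finset.card_pos.mpr ⟨x, hx⟩
    omega
  obtain ⟨τ, hτu, hτT⟩ := iso (p := p) (y x' - y x) (fun z => y z - y x) s T hTc (by
    intro z hz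
    exact (Finset.mem_filter.mp hz).2)
  set F : Finset X := S.filter fun z => ∀ i, τ i (y z) = τ i (y x) with hF
  have hxF : x ∈ F := by
    simp [hF, hx]
  have hx'F : x' ∈ F := by
    simp only [hF, Finset.mem_filter]
    refine ⟨hx', fun i => ?_⟩
    have := hτu i
    rw [map_sub] at this
    exact sub_eq_zero.mp this
  have hFp : p ≤ F.card := by
    have hFpos : 0 < F.card := Finset.card_pos.mpr ⟨x, hxF⟩
    rcases hPC τ with h | ⟨_, h⟩
    · have h5 := h fun i => τ i (y x)
      refine Nat.le_of_dvd hFpos ?_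
      convert h5 using 2
    · exfalso
      have h5 := h fun i => τ i (y x)
      have h6 : F.card = 1 := by
        rw [← h5]
      rw [Finset.card_eq_one] at h6
      obtain ⟨a, ha⟩ := h6
      rw [ha, Finset.mem_singleton] at hxF hx'F
      exact hne (hxF.trans hx'F.symm)
  -- every point of the fibre lies on the line
  set c : X → ZMod p := fun z => l₀ (y z - y x) / l₀ (y x' - y x) with hc
  have hline : ∀ z ∈ F, ∀ l : G →+ ZMod p, l (y z) = l (y x) + c z * (l (y x') - l (y x)) := by
    intro z hz l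
    have hzS : z ∈ S := (Finset.mem_filter.mp hz).1
    have hzT : z ∉ T := by
      intro hzT
      obtain ⟨i, hi⟩ := hτT z hzT
      apply hi
      show τ i (y z - y x) = 0
      rw [map_sub, (Finset.mem_filter.mp hz).2 i, sub_self]
    have hall : ∀ m : G →+ ZMod p, m (y x' - y x) = 0 → m (y z - y x) = 0 := by
      intro m hm
      by_contra hcon
      exact hzT (Finset.mem_filter.mpr ⟨hzS, m, hm, hcon⟩)
    have h7 := hall (l - (AddMonoidHom.mulLeft (l (y x' - y x) / l₀ (y x' - y x))).comp l₀) (by
      simp only [AddMonoidHom.sub_apply, AddMonoidHom.comp_apply, AddMonoidHom.coe_mulLeft]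
      rw [div_mul_cancel₀ _ hl₀, sub_self])
    simp only [AddMonoidHom.sub_apply, AddMonoidHom.comp_apply, AddMonoidHom.coe_mulLeft] at h7
    have h8 : l (y z) - l (y x) = c z * (l (y x') - l (y x)) := by
      have h9 : l (y z - y x) = l (y x' - y x) / l₀ (y x' - y x) * l₀ (y z - y x) :=
        sub_eq_zero.mp h7
      rw [← map_sub, ← map_sub, h9, hc]
      simp only []
      rw [div_mul_eq_mul_div, div_mul_eq_mul_div, mul_comm]
    linear_combination h8
  have hinj : Set.InjOn c (F : Set X) := by
    intro z hz w hw hzw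
    have hz' : z ∈ F := hz
    have hw' : w ∈ F := hw
    have hzS : z ∈ S := (Finset.mem_filter.mp hz').1
    have hwS : w ∈ S := (Finset.mem_filter.mp hw').1
    have h10 := h1 z hzS
    rw [Finset.card_eq_one] at h10
    obtain ⟨a, ha⟩ := h10
    have hza : z ∈ cls p y S (y z) := by
      simp [cls, hzS]
    have hwa : w ∈ cls p y S (y z) := by
      simp only [cls, Finset.mem_filter]
      refine ⟨hwS, fun l => ?_⟩
      rw [hline w hw' l, hline z hz' l, hzw]
    rw [ha, Finset.mem_singleton] at hza hwa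
    exact hza.trans hwa.symm
  have himg : F.image c = Finset.univ := by
    apply Finset.eq_univ_of_card
    apply le_antisymm (Finset.card_le_univ _)
    rw [Finset.card_image_of_injOn hinj, ZMod.card]
    exact hFp
  have htm : t ∈ F.image c := by
    rw [himg]
    exact Finset.mem_univ t
  obtain ⟨z, hz, hzt⟩ := Finset.mem_image.mp htm
  refine ⟨z, (Finset.mem_filter.mp hz).1, fun l => ?_⟩
  rw [hline z hz l, hzt]

theorem aff_closed {p s : ℕ} [Fact p.Prime] (hp : p ≠ 2) {X G : Type*} [AddCommGroup G] [Finite G] (y : X → G) (S : Finset X)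
    (hPC : PushC p s y S) (hS : S.card ≤ p ^ s)
    (h1 : ∀ x ∈ S, (cls p y S (y x)).card = 1) (x x' x'' : X) (hx : x ∈ S) (hx' : x' ∈ S)
    (hx'' : x'' ∈ S) :
    ∃ z ∈ S, ∀ l : G →+ ZMod p, l (y z) = l (y x'') + l (y x') - l (y x) := by
  by_cases h12 : x = x'
  · subst h12
    exact ⟨x'', hx'', fun l => by ring⟩
  by_cases h13 : x = x''
  · subst h13
    exact ⟨x', hx', fun l => by ring⟩
  have hp2 : (2 : ZMod p) ≠ 0 := by
    intro h
    have h' : ((2 : ℕ) : ZMod p) = 0 := by exact_mod_cast h
    rw [ZMod.natCast_eq_zero_iff] at h'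
    exact hp ((Nat.prime_dvd_prime_iff_eq (Fact.out : p.Prime) Nat.prime_two).mp h')
  by_cases h23 : x' = x''
  · subst h23
    obtain ⟨z, hz, hzl⟩ := line_closed y S hPC hS h1 x x' hx hx' h12 2
    exact ⟨z, hz, fun l => by rw [hzl l]; ring⟩
  obtain ⟨m, hm, hml⟩ := line_closed y S hPC hS h1 x' x'' hx' hx'' h23 2⁻¹
  have hml' : ∀ l : G →+ ZMod p, 2 * l (y m) = l (y x') + l (y x'') := by
    intro l
    rw [hml l]
    have h5 : (2 : ZMod p) * 2⁻¹ = 1 := mul_inv_cancel₀ hp2
    linear_combination (l (y x'') - l (y x')) * h5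
  by_cases hmx : x = m
  · refine ⟨x, hx, fun l => ?_⟩
    have h6 := hml' l
    rw [← hmx] at h6
    linear_combination h6
  · obtain ⟨z, hz, hzl⟩ := line_closed y S hPC hS h1 x m hx hm hmx 2
    refine ⟨z, hz, fun l => ?_⟩
    rw [hzl l]
    linear_combination hml' l

end Pool.Agent.H88.T56
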