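import Pool.Agent.H16.RB.Rank
import Pool.Agent.H16.RB.Iso

/-!
# T56 (MP_460e77_co, helper88): there is no planar function between non-elementary groups of order `5 ^ 6`: definitions

Note of helper88 (kind wave3, 2026-12-05 01:20Z).  `f : H → K` planar, `|H| = |K| = 5 ^ 6`, `G = H × K`, `25 G = 0`, `|5 G| = 125`,
`gr f x = (x, f x)`, `sl 5 f v = {x | 5 • gr f x = v}` (slices).
-/

set_option autoImplicit false

namespace Pool.Agent.H88.T56

open Finset Pool.Agent.H16.RB Pool.Agent.H88.Pl
open scoped Classical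

/-- the value modulo `p` of the quotient of the products over `1 ≤ t < (b + 1) p` -/
def tb (p b α w : ℕ) : ℤ :=
  if (p : ℤ) ∣ (α : ℤ) - w then
    (-1) ^ ((b + 1) * p - 1) * ((((α + p ^ 2 * (w + 1) - w) / p - 1).choose b : ℕ) : ℤ)
  else 0

/-- the second digit of `a g` (used for `5 • g = 0`, then it is additive in `g` and in `a`) -/
def ph {G : Type*} [AddCommGroup G] (a : G →+ ZMod 25) (g : G) : ZMod 5 :=
  (((a g).val / 5 : ℕ) : ZMod 5)

/-- The conclusion of `push_const`: for each `τ` all fibres of `τ` on `S` have size divisible by `p`, or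
`S` has `p ^ s` elements and all fibres have size `1`. -/
def PushC (p s : ℕ) {X G : Type*} [AddCommGroup G] (y : X → G) (S : Finset X) : Prop :=
  ∀ τ : Fin s → (G →+ ZMod p),
    (∀ z : Fin s → ZMod p, p ∣ (S.filter fun x => ∀ i, τ i (y x) = z i).card) ∨
      (S.card = p ^ s ∧ ∀ z : Fin s → ZMod p, (S.filter fun x => ∀ i, τ i (y x) = z i).card = 1)

/-- `S` takes exactly three values of `l`, and the part over the value `c1` has exactly one point over each
point of the plane with coordinates `μ1`, `μ2`. -/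
def HasPlane {X G : Type*} [AddCommGroup G] (y : X → G) (S : Finset X) : Prop :=
  ∃ (l μ1 μ2 : G →+ ZMod 5) (c1 c2 c3 : ZMod 5), c1 ≠ c2 ∧ c1 ≠ c3 ∧
    (∀ x ∈ S, l (y x) = c1 ∨ l (y x) = c2 ∨ l (y x) = c3) ∧
    ∀ s t : ZMod 5, (S.filter fun x => l (y x) = c1 ∧ μ1 (y x) = s ∧ μ2 (y x) = t).card = 1

end Pool.Agent.H88.T56
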