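import Pool.Agent.H88.T56.Defs
import Pool.Agent.H16.RB2.Dig2

/-!
# T56 module Dig5: the product over `1 ≤ t < (b + 1) p`

Copy the proof of `digit_factor3`, `cost_digit3` (Pool/Agent/H38/T35/Dig3.lean, the case `b = 1`; its private lemmas on Gaussian binomials can be copied here) with `N = (b + 1) p`, `M = p ^ 2`:
`A = α + p ^ 2 * (w + 1) - w ≥ N`, the quotient is `(∏ η ^ (w + t)) * (-1) ^ (N - 1) * gb (A - 1) (N - 1)`, `gb ≡ (A - 1).choose (N - 1)` modulo `π`, and by Lucas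
(`Choose.choose_modEq_choose_mod_mul_choose_div_nat`, `N - 1 = p * b + (p - 1)`) this is `((A - 1) / p).choose b * ((A - 1) % p).choose (p - 1)`, i.e. `(A / p - 1).choose b` if `p ∣ A` and `0` otherwise;
`p ∣ A` iff `p ∣ α - w`.
-/

set_option autoImplicit false

namespace Pool.Agent.H88.T56

open Finset NumberField Pool.Agent.H16.RB

/-- Gaussian binomials -/
private def Dig5_gb {O : Type*} [CommRing O] (q : O) : ℕ → ℕ → O
  | _, 0 => 1
  | 0, _ + 1 => 0
  | n + 1, k + 1 => Dig5_gb q n k + q ^ (k + 1) * Dig5_gb q n (k + 1)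

private theorem Dig5_gb_zero {O : Type*} [CommRing O] (q : O) (n : ℕ) : Dig5_gb q n 0 = 1 := by
  cases n <;> rw [Dig5_gb]

private theorem Dig5_gb_lt {O : Type*} [CommRing O] (q : O) (n : ℕ) :
    ∀ k : ℕ, n < k → Dig5_gb q n k = 0 := by
  induction n with
  | zero =>
    intro k hk
    obtain ⟨j, rfl⟩ : ∃ j, k = j + 1 := ⟨k - 1, by omega⟩
    rw [Dig5_gb]
  | succ n ih =>
    intro k hk
    obtain ⟨j, rfl⟩ : ∃ j, k = j + 1 := ⟨k - 1, by omega⟩
    rw [Dig5_gb, ih j (by omega), ih (j + 1) (by omega), mul_zero, add_zero]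

private theorem Dig5_gb_self {O : Type*} [CommRing O] (q : O) (n : ℕ) : Dig5_gb q n n = 1 := by
  induction n with
  | zero => rw [Dig5_gb]
  | succ n ih => rw [Dig5_gb, ih, Dig5_gb_lt q n (n + 1) (by omega), mul_zero, add_zero]

private theorem Dig5_gb_prod {O : Type*} [CommRing O] (q : O) : ∀ n k : ℕ,
    Dig5_gb q (n + k) k * ∏ i ∈ range k, (q ^ (i + 1) - 1) =
      ∏ i ∈ range k, (q ^ (n + i + 1) - 1) := by
  intro n
  induction n with
  | zero =>
    intro k
    rw [zero_add, Dig5_gb_self, one_mul]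
    exact prod_congr rfl fun i _ => by rw [zero_add]
  | succ n ihn =>
    intro k
    induction k with
    | zero => rw [prod_range_zero, prod_range_zero, mul_one, add_zero, Dig5_gb_zero]
    | succ k ihk =>
      have h1 : Dig5_gb q (n + 1 + (k + 1)) (k + 1) =
          Dig5_gb q (n + 1 + k) k + q ^ (k + 1) * Dig5_gb q (n + (k + 1)) (k + 1) := by
        rw [show n + 1 + (k + 1) = (n + 1 + k) + 1 by ring, Dig5_gb,
          show n + (k + 1) = n + 1 + k by ring]
      have h2 := ihn (k + 1)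
      have h3 : ∏ i ∈ range (k + 1), (q ^ (n + i + 1) - 1) =
          (q ^ (n + 1) - 1) * ∏ i ∈ range k, (q ^ (n + 1 + i + 1) - 1) := by
        rw [prod_range_succ', mul_comm, add_zero]
        congr 1
        exact prod_congr rfl fun i _ => by rw [show n + (i + 1) + 1 = n + 1 + i + 1 by ring]
      rw [h3] at h2
      rw [h1, add_mul, mul_assoc, h2, prod_range_succ, ← mul_assoc, ihk, prod_range_succ]
      ring

private theorem Dig5_pow {O : Type*} [CommRing O] {q π : O} (h : π ∣ q - 1) (n : ℕ) :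
    π ∣ q ^ n - 1 := by
  have h1 := sub_dvd_pow_sub_pow q 1 n
  rw [one_pow] at h1
  exact h.trans h1

private theorem Dig5_gb_mod {O : Type*} [CommRing O] {q π : O} (h : π ∣ q - 1) (n : ℕ) :
    ∀ k : ℕ, π ∣ Dig5_gb q n k - (n.choose k : O) := by
  induction n with
  | zero =>
    intro k
    cases k with
    | zero => rw [Dig5_gb_zero, Nat.choose_zero_right, Nat.cast_one, sub_self]; exact dvd_zero _
    | succ k =>
      rw [Dig5_gb_lt q 0 (k + 1) (by omega), Nat.choose_zero_succ, Nat.cast_zero, sub_self]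
      exact dvd_zero _
  | succ n ih =>
    intro k
    cases k with
    | zero => rw [Dig5_gb_zero, Nat.choose_zero_right, Nat.cast_one, sub_self]; exact dvd_zero _
    | succ k =>
      rw [Dig5_gb, Nat.choose_succ_succ, Nat.cast_add]
      have h1 : Dig5_gb q n k + q ^ (k + 1) * Dig5_gb q n (k + 1) -
          ((n.choose k : O) + (n.choose (k + 1) : O)) =
          (Dig5_gb q n k - (n.choose k : O)) + (Dig5_gb q n (k + 1) - (n.choose (k + 1) : O)) +
            (q ^ (k + 1) - 1) * Dig5_gb q n (k + 1) := by ring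
      rw [h1]
      exact dvd_add (dvd_add (ih k) (ih (k + 1))) (dvd_mul_of_dvd_left (Dig5_pow h _) _)

/-- the value of the binomial modulo `p` -/
private theorem Dig5_lucas {p : ℕ} [hp : Fact p.Prime] {A α w : ℕ} (b : ℕ) (hA0 : 1 ≤ A)
    (hA : w + A = α + p ^ 2 * (w + 1)) :
    (p : ℤ) ∣ (((A - 1).choose ((b + 1) * p - 1) : ℕ) : ℤ) -
      (if (p : ℤ) ∣ (α : ℤ) - w then (((A / p - 1).choose b : ℕ) : ℤ) else 0) := by
  have hp1 := hp.out.one_lt
  have hαw : (α : ℤ) - w = A - (p : ℤ) ^ 2 * (w + 1) := by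
    have h := congrArg (fun z : ℕ => (z : ℤ)) hA
    push_cast at h
    linarith
  have e0 : (b + 1) * p - 1 = (p - 1) + p * b := by
    have : (b + 1) * p = p + p * b := by ring
    omega
  have e1 : ((b + 1) * p - 1) % p = p - 1 := by
    rw [e0, Nat.add_mul_mod_self_left]
    exact Nat.mod_eq_of_lt (by omega)
  have e2 : ((b + 1) * p - 1) / p = b := by
    rw [e0, Nat.add_mul_div_left _ _ (by omega), Nat.div_eq_of_lt (by omega), zero_add]
  have h1 := Choose.choose_modEq_choose_mod_mul_choose_div_nat (n := A - 1)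
    (k := (b + 1) * p - 1) (p := p)
  rw [e1, e2] at h1
  by_cases hd : p ∣ A
  · obtain ⟨c, hc⟩ := hd
    have hc0 : 0 < c := by
      rcases Nat.eq_zero_or_pos c with h0 | h0
      · rw [h0, mul_zero] at hc
        omega
      · exact h0
    obtain ⟨c', rfl⟩ : ∃ c', c = c' + 1 := ⟨c - 1, by omega⟩
    have e3 : A - 1 = (p - 1) + p * c' := by
      rw [hc, mul_add, mul_one]
      omega
    have e4 : (A - 1) % p = p - 1 := by
      rw [e3, Nat.add_mul_mod_self_left]
      exact Nat.mod_eq_of_lt (by omega)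
    have e5 : (A - 1) / p = c' := by
      rw [e3, Nat.add_mul_div_left _ _ (by omega), Nat.div_eq_of_lt (by omega), zero_add]
    have e6 : A / p - 1 = c' := by
      rw [hc, Nat.mul_div_cancel_left _ (by omega)]
      omega
    rw [e4, e5, Nat.choose_self, one_mul] at h1
    have h2 : (p : ℤ) ∣ (((A - 1).choose ((b + 1) * p - 1) : ℕ) : ℤ) - ((c'.choose b : ℕ) : ℤ) :=
      Nat.modEq_iff_dvd.1 h1.symm
    have h3 : (α : ℤ) - w = p * ((c' : ℤ) + 1 - p * (w + 1)) := by
      rw [hαw, hc]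
      push_cast
      ring
    rw [if_pos ⟨_, h3⟩, e6]
    exact h2
  · have hn : ¬ (p : ℤ) ∣ (α : ℤ) - w := by
      rw [hαw]
      intro h
      have h2 : (p : ℤ) ∣ (p : ℤ) ^ 2 * (w + 1) :=
        dvd_mul_of_dvd_left (dvd_pow_self _ (by omega)) _
      have h3 : (p : ℤ) ∣ (A : ℤ) := by
        have h4 := dvd_add h h2
        rwa [sub_add_cancel] at h4
      exact hd (by exact_mod_cast h3)
    have hlt := Nat.mod_lt (A - 1) (show 0 < p by omega)
    have hne : (A - 1) % p ≠ p - 1 := by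
      intro h
      apply hd
      have h3 := Nat.mod_add_div (A - 1) p
      rw [h] at h3
      refine ⟨(A - 1) / p + 1, ?_⟩
      rw [mul_add, mul_one]
      omega
    rw [Nat.choose_eq_zero_of_lt (show (A - 1) % p < p - 1 by omega), zero_mul] at h1
    have h3 : (p : ℤ) ∣ (((A - 1).choose ((b + 1) * p - 1) : ℕ) : ℤ) - ((0 : ℕ) : ℤ) :=
      Nat.modEq_iff_dvd.1 h1.symm
    rw [if_neg hn]
    simpa using h3

theorem digit_factorB {O : Type*} [CommRing O] [IsDomain O] {p : ℕ} [Fact p.Prime] {η π : O}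
    (hη : IsPrimitiveRoot η (p ^ 2)) (hπ : π ∣ η - 1) (hp : π ∣ (p : O)) (b : ℕ) (hb : b + 1 ≤ p)
    (α w : ℕ) :
    ∃ u : O, ∏ t ∈ Ico 1 ((b + 1) * p), (η ^ α - η ^ (w + t)) =
        (∏ t ∈ Ico 1 ((b + 1) * p), (1 - η ^ t)) * u ∧
      π ∣ u - ((tb p b α w : ℤ) : O) := by
  have hp1 : 1 < p := (Fact.out : p.Prime).one_lt
  obtain ⟨N, hNe⟩ : ∃ N, N = (b + 1) * p := ⟨_, rfl⟩
  obtain ⟨M, hMe⟩ : ∃ M, M = p ^ 2 := ⟨_, rfl⟩
  have hN : 0 < N := by
    rw [hNe]
    positivity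
  have hNM : N ≤ M := by
    rw [hMe, hNe, sq]
    exact Nat.mul_le_mul_right _ hb
  have hwM : w ≤ M * (w + 1) := by nlinarith
  obtain ⟨A, hAe⟩ : ∃ A, A = α + M * (w + 1) - w := ⟨_, rfl⟩
  have hA : w + A = α + M * (w + 1) := by omega
  have hAN : N ≤ A := by
    have h1 : w + M ≤ M * (w + 1) := by nlinarith
    omega
  have hηA : η ^ α = η ^ (w + A) := by
    rw [hA, pow_add, pow_mul, hMe, hη.pow_eq_one, one_pow, mul_one]
  have htb : tb p b α w = (-1) ^ (N - 1) *
      (if (p : ℤ) ∣ (α : ℤ) - w then (((A / p - 1).choose b : ℕ) : ℤ) else 0) := by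
    rw [tb, hNe, hAe, hMe]
    split_ifs
    · rfl
    · rw [mul_zero]
  rw [← hNe]
  have hterm : ∏ t ∈ Ico 1 N, (η ^ α - η ^ (w + t)) =
      (∏ t ∈ Ico 1 N, η ^ (w + t)) * ∏ t ∈ Ico 1 N, (η ^ (A - t) - 1) := by
    rw [← prod_mul_distrib]
    refine prod_congr rfl fun t ht => ?_
    rw [mem_Ico] at ht
    rw [mul_sub, mul_one, ← pow_add, hηA]
    congr 2
    omega
  have hrev : ∏ t ∈ Ico 1 N, (η ^ (A - t) - 1) =
      ∏ i ∈ range (N - 1), (η ^ (A - N + i + 1) - 1) := by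
    refine prod_nbij' (fun t => N - 1 - t) (fun i => N - 1 - i) ?_ ?_ ?_ ?_ ?_
    · intro t ht
      rw [mem_Ico] at ht
      rw [mem_range]
      omega
    · intro i hi
      rw [mem_range] at hi
      rw [mem_Ico]
      omega
    · intro t ht
      rw [mem_Ico] at ht
      omega
    · intro i hi
      rw [mem_range] at hi
      omega
    · intro t ht
      rw [mem_Ico] at ht
      congr 2
      omega
  have hgb := Dig5_gb_prod η (A - N) (N - 1)
  rw [show A - N + (N - 1) = A - 1 by omega] at hgb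
  have hsgn : ∏ i ∈ range (N - 1), (η ^ (i + 1) - 1) =
      (-1) ^ (N - 1) * ∏ t ∈ Ico 1 N, (1 - η ^ t) := by
    have h1 : ∏ t ∈ Ico 1 N, (1 - η ^ t) = ∏ i ∈ range (N - 1), (1 - η ^ (i + 1)) := by
      rw [prod_Ico_eq_prod_range]
      exact prod_congr rfl fun i _ => by rw [add_comm 1 i]
    have h2 : ∏ i ∈ range (N - 1), (η ^ (i + 1) - 1) =
        ∏ i ∈ range (N - 1), ((-1) * (1 - η ^ (i + 1))) :=
      prod_congr rfl fun i _ => by ring
    rw [h1, h2, prod_mul_distrib, prod_const, card_range]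
  refine ⟨(∏ t ∈ Ico 1 N, η ^ (w + t)) * ((-1) ^ (N - 1) * Dig5_gb η (A - 1) (N - 1)), ?_, ?_⟩
  · rw [hterm, hrev, ← hgb, hsgn]
    ring
  · have h1 : π ∣ (∏ t ∈ Ico 1 N, η ^ (w + t)) - 1 := by
      rw [prod_pow_eq_pow_sum]
      exact Dig5_pow hπ _
    have h3 : π ∣ Dig5_gb η (A - 1) (N - 1) - ((A - 1).choose (N - 1) : O) := Dig5_gb_mod hπ _ _
    set T : ℤ := if (p : ℤ) ∣ (α : ℤ) - w then (((A / p - 1).choose b : ℕ) : ℤ) else 0 with hT
    have h4 : π ∣ ((A - 1).choose (N - 1) : O) - ((T : ℤ) : O) := by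
      rw [hMe] at hA
      obtain ⟨c, hc⟩ := Dig5_lucas (p := p) b (show 1 ≤ A by omega) hA
      rw [← hNe, ← hT] at hc
      have h5 := congrArg (fun z : ℤ => (z : O)) hc
      push_cast at h5
      rw [h5]
      exact dvd_mul_of_dvd_left hp _
    rw [htb]
    push_cast
    have h5 : (∏ t ∈ Ico 1 N, η ^ (w + t)) * ((-1) ^ (N - 1) * Dig5_gb η (A - 1) (N - 1)) -
        (-1) ^ (N - 1) * ((T : ℤ) : O) =
        ((∏ t ∈ Ico 1 N, η ^ (w + t)) - 1) * ((-1) ^ (N - 1) * Dig5_gb η (A - 1) (N - 1)) +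
        (Dig5_gb η (A - 1) (N - 1) - ((A - 1).choose (N - 1) : O)) * (-1) ^ (N - 1) +
        (((A - 1).choose (N - 1) : O) - ((T : ℤ) : O)) * (-1) ^ (N - 1) := by ring
    rw [h5]
    exact dvd_add (dvd_add (dvd_mul_of_dvd_left h1 _) (dvd_mul_of_dvd_left h3 _))
      (dvd_mul_of_dvd_left h4 _)

/-- `∏ (1 - ζ ^ t)` over `1 ≤ t < (b + 1) p` divides `(ζ - 1) ^ ((p - 1) + b * (2 * p - 1))`: the `b` multiples `t = p c`, `1 ≤ c ≤ b < p`, cost `p` each
(`1 - ζ ^ (p c)` divides `1 - ζ ^ p`, as `c` is invertible modulo `p ^ 2`, which divides `(1 - ζ) ^ p` by `cost_lin`), the others `1` each. -/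
theorem cost_digitB {p : ℕ} [Fact p.Prime] {L : Type*} [Field L] [NumberField L]
    [IsCyclotomicExtension {p ^ 2} ℚ L] {ζ : L} (hζ : IsPrimitiveRoot ζ (p ^ 2)) (b : ℕ)
    (hb : b + 1 ≤ p) :
    ∏ t ∈ Ico 1 ((b + 1) * p), (1 - hζ.toInteger ^ t) ∣
      (hζ.toInteger - 1) ^ ((p - 1) + b * (2 * p - 1)) := by
  have hp : p.Prime := Fact.out
  have hp1 := hp.one_lt
  have hζ' : IsPrimitiveRoot hζ.toInteger (p ^ 2) := hζ.toInteger_isPrimitiveRoot
  have h1 : (1 - hζ.toInteger ^ p) ∣ (hζ.toInteger - 1) ^ p := by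
    have h := cost_lin (p := p) (k := 1) (L := L) hζ
    rw [pow_one] at h
    rw [← neg_sub, neg_dvd]
    exact h
  have hc : ∀ c, 1 ≤ c → c < p → (1 - hζ.toInteger ^ (p * c)) ∣ (hζ.toInteger - 1) ^ p := by
    intro c hc1 hc2
    refine dvd_trans ?_ h1
    have hcop : Nat.Coprime c p := (Nat.coprime_of_lt_prime (by omega) hc2 hp).symm
    obtain ⟨s, hs⟩ := Nat.exists_mul_mod_eq_one_of_coprime hcop hp1
    have h2 : (hζ.toInteger ^ (p * c)) ^ s = hζ.toInteger ^ p := by
      have h3 : p * c * s = p + p ^ 2 * (c * s / p) := by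
        have h4 := Nat.mod_add_div (c * s) p
        rw [hs.2] at h4
        rw [mul_assoc]
        nth_rewrite 1 [← h4]
        ring
      rw [← pow_mul, h3, pow_add, pow_mul _ (p ^ 2), hζ'.pow_eq_one, one_pow, mul_one]
    have h := Cyc.one_sub_dvd (hζ.toInteger ^ (p * c)) s
    rw [h2] at h
    exact h
  have hn : ∀ t, ¬ p ∣ t → (1 - hζ.toInteger ^ t) ∣ (hζ.toInteger - 1) := by
    intro t hnd
    have hcop : Nat.Coprime t (p ^ 2) := ((hp.coprime_iff_not_dvd.2 hnd).symm).pow_right 2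
    have hprim : IsPrimitiveRoot (hζ.toInteger ^ t) (p ^ 2) :=
      hζ'.pow_of_coprime t hcop
    have : NeZero (p ^ 2) := ⟨pow_ne_zero 2 hp.ne_zero⟩
    obtain ⟨s, -, hs⟩ := hprim.eq_pow_of_pow_eq_one hζ'.pow_eq_one
    rw [← neg_sub 1 hζ.toInteger, dvd_neg]
    have h := Cyc.one_sub_dvd (hζ.toInteger ^ t) s
    rw [hs] at h
    exact h
  have hblock : ∀ c, ∏ t ∈ Ico (c * p + 1) ((c + 1) * p), (1 - hζ.toInteger ^ t) ∣
      (hζ.toInteger - 1) ^ (p - 1) := by
    intro c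
    have h2 : (hζ.toInteger - 1) ^ (p - 1) =
        ∏ _t ∈ Ico (c * p + 1) ((c + 1) * p), (hζ.toInteger - 1) := by
      rw [prod_const, Nat.card_Ico]
      congr 1
      have : (c + 1) * p = c * p + p := by ring
      omega
    rw [h2]
    refine prod_dvd_prod_of_dvd _ _ fun t ht => hn t ?_
    rw [mem_Ico] at ht
    rintro ⟨d, hd⟩
    have h3 : c < d := by
      by_contra hcon
      have : p * d ≤ p * c := Nat.mul_le_mul_left p (by omega)
      have : p * c = c * p := mul_comm _ _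
      omega
    have h4 : p * (c + 1) ≤ p * d := Nat.mul_le_mul_left p h3
    have : p * (c + 1) = (c + 1) * p := mul_comm _ _
    omega
  induction b with
  | zero =>
    have h := hblock 0
    rw [zero_mul, zero_add] at h
    rw [zero_mul, add_zero]
    exact h
  | succ b ih =>
    have h2 : ∏ t ∈ Ico 1 ((b + 1 + 1) * p), (1 - hζ.toInteger ^ t) =
        (∏ t ∈ Ico 1 ((b + 1) * p), (1 - hζ.toInteger ^ t)) *
          ((1 - hζ.toInteger ^ (p * (b + 1))) *
            ∏ t ∈ Ico ((b + 1) * p + 1) ((b + 1 + 1) * p), (1 - hζ.toInteger ^ t)) := by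
      have e1 : (b + 1 + 1) * p = (b + 1) * p + p := by ring
      have e2 : 1 ≤ (b + 1) * p := Nat.mul_pos (by omega) (by omega)
      have e3 := prod_eq_prod_Ico_succ_bot (show (b + 1) * p < (b + 1 + 1) * p by omega)
        (fun t => 1 - hζ.toInteger ^ t)
      rw [mul_comm p (b + 1), ← e3, prod_Ico_consecutive _ e2 (by omega)]
    rw [h2, show p - 1 + (b + 1) * (2 * p - 1) = (p - 1 + b * (2 * p - 1)) + (p + (p - 1)) by
      rw [add_mul, one_mul, ← add_assoc]
      omega, pow_add _ (p - 1 + b * (2 * p - 1)), pow_add _ p]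
    exact mul_dvd_mul (ih (by omega)) (mul_dvd_mul (hc (b + 1) (by omega) (by omega))
      (hblock (b + 1)))

end Pool.Agent.H88.T56
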