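import Pool.Agent.H88.T56.Dig5
import Pool.Agent.H16.RB2.Key2

/-!
# T56 module Key5: digits and functionals, one digit with its top part

Copy of the proof of `key3` (Pool/Agent/H38/T35/Key3.lean, the case `b = 1`), with the factor of `j0` running over `t ∈ Ico 1 ((b + 1) * p)` (`digit_factorB`, `cost_digitB`).
Costs (exponents of `z - 1`): `p - 1` for each `j ≠ j0`, `(p - 1) + b (2 p - 1)` for `j0`, `p` for each element of `Ls`; `M = r p (p - 1) / 2` (`val_sum`).
-/

set_option autoImplicit false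

namespace Pool.Agent.H88.T56

open Finset NumberField Pool.Agent.H88.Pl Pool.Agent.H16.RB Pool.Agent.H16.RB2
open scoped Classical

private theorem cost_one {p : ℕ} [Fact p.Prime] {O : Type*} [CommRing O] {z : O}
    (hz : IsPrimitiveRoot z (p ^ 2)) : (∏ t ∈ Ico 1 p, (1 - z ^ t)) ∣ (z - 1) ^ (p - 1) := by
  have hpp : p.Prime := Fact.out
  have h1 : (∏ t ∈ Ico 1 p, (1 - z ^ t)) ∣ ∏ _t ∈ Ico 1 p, (z - 1) := by
    refine prod_dvd_prod_of_dvd _ _ fun t ht => ?_
    rw [mem_Ico] at ht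
    have hnt : ¬ p ∣ t := fun h => by have := Nat.le_of_dvd (by omega) h; omega
    have hcop : Nat.Coprime t (p ^ 2) := ((hpp.coprime_iff_not_dvd.2 hnt).pow_left 2).symm
    obtain ⟨s, -, hs⟩ :=
      Nat.exists_mul_mod_eq_one_of_coprime hcop (Nat.one_lt_pow (by omega) hpp.one_lt)
    have h1 : z = (z ^ t) ^ s := by
      rw [← pow_mul, ← Nat.mod_add_div (t * s) (p ^ 2), hs, pow_add, pow_mul, hz.pow_eq_one,
        one_pow, mul_one, pow_one]
    rw [← dvd_neg, neg_sub]
    nth_rw 2 [h1]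
    have h2 := sub_dvd_pow_sub_pow (1 : O) (z ^ t) s
    rwa [one_pow] at h2
  rwa [prod_const, Nat.card_Ico] at h1

theorem keyB {p r : ℕ} [Fact p.Prime] (hp : p ≠ 2) {H K : Type*} [AddCommGroup H]
    [AddCommGroup K] [Fintype H] [Fintype K] (hH : Fintype.card H = p ^ r) (f : H → K)
    (hf : IsPlanar f) {J : Type} [Fintype J] (j0 : J) (b : ℕ) (hb : b + 1 ≤ p)
    (a : J → (H × K →+ ZMod (p ^ 2))) (w0 : J → ℕ)
    (Ls : List ((H × K →+ ZMod p) × ZMod p))
    (hn : 2 * (Fintype.card J * (p - 1) + b * (2 * p - 1) + p * Ls.length) < r * p * (p - 1)) :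
    ∑ x, ((tb p b (a j0 (gr f x)).val (w0 j0) *
        ∏ j ∈ univ.erase j0, (if (a j (gr f x)).val ≡ w0 j [MOD p] then 1 else 0) : ℤ) : ZMod p) *
      (Ls.map fun l => l.1 (gr f x) - l.2).prod = 0 := by
  have hpp : p.Prime := Fact.out
  have hpos : 0 < p := hpp.pos
  have hp1 : 1 < p := hpp.one_lt
  have hnz : p ^ (1 + 1) ≠ 0 := pow_ne_zero _ hpp.ne_zero
  have : NeZero (p ^ (1 + 1)) := ⟨hnz⟩
  let L := CyclotomicField (p ^ (1 + 1)) ℚ
  have hL : IsCyclotomicExtension {p ^ (1 + 1)} ℚ L := CyclotomicField.isCyclotomicExtension _ _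
  have hL2 : IsCyclotomicExtension {p ^ 2} ℚ L := hL
  have : NumberField L := IsCyclotomicExtension.numberField {p ^ (1 + 1)} ℚ L
  let ζ : L := IsCyclotomicExtension.zeta (p ^ (1 + 1)) ℚ L
  have hζ : IsPrimitiveRoot ζ (p ^ (1 + 1)) := IsCyclotomicExtension.zeta_spec _ _ _
  have hzp : IsPrimitiveRoot hζ.toInteger (p ^ (1 + 1)) := hζ.toInteger_isPrimitiveRoot
  set z : 𝓞 L := hζ.toInteger with hz
  have hzp2 : IsPrimitiveRoot z (p ^ 2) := hzp
  have hz1 : z ^ (p ^ (1 + 1)) = 1 := hzp.pow_eq_one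
  obtain ⟨M, hM⟩ : ∃ M, 2 * M = r * (p ^ 1 * (p - 1)) := by
    have h1 : Even (p - 1) := (hpp.odd_of_ne_two hp).tsub_odd odd_one
    obtain ⟨c, hc⟩ := h1
    exact ⟨r * (p ^ 1 * c), by rw [hc]; ring⟩
  -- fine functions
  let fine : (H → 𝓞 L) → Prop := fun F =>
    ∀ b : H × K →+ ZMod (p ^ (1 + 1)), (z - 1) ^ M ∣ ∑ x, z ^ (b (gr f x)).val * F x
  have fine_one : fine (fun _ => 1) := by
    intro b
    simp only [mul_one]
    exact val_sum hp hH f hf hζ b M hM
  have fine_step : ∀ (F : H → 𝓞 L) (b : H × K →+ ZMod (p ^ (1 + 1))) (c : 𝓞 L), fine F →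
      fine (fun x => F x * (z ^ (b (gr f x)).val - c)) := by
    intro F b c hF b'
    have h1 : ∑ x, z ^ (b' (gr f x)).val * (F x * (z ^ (b (gr f x)).val - c)) =
        ∑ x, z ^ ((b' + b) (gr f x)).val * F x - c * ∑ x, z ^ (b' (gr f x)).val * F x := by
      rw [mul_sum, ← sum_sub_distrib]
      refine sum_congr rfl fun x _ => ?_
      rw [AddMonoidHom.add_apply, Key.pow_val_add' hz1]
      ring
    rw [h1]
    exact dvd_sub (hF _) ((hF _).mul_left c)
  have fine_prod : ∀ {ι : Type} (T : Finset ι) (b : ι → (H × K →+ ZMod (p ^ (1 + 1))))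
      (c : ι → 𝓞 L) (F : H → 𝓞 L), fine F →
      fine (fun x => F x * ∏ t ∈ T, (z ^ (b t (gr f x)).val - c t)) := by
    intro ι T b c F hF
    induction T using Finset.induction_on with
    | empty => simpa using hF
    | insert t T ht ih =>
      have := fine_step _ (b t) (c t) ih
      refine cast ?_ this
      congr 1
      funext x
      rw [prod_insert ht]
      ring
  -- the digit factors
  set nj : J → ℕ := fun j => if j = j0 then (b + 1) * p else p with hnj
  have fine_digits : ∀ T : Finset J, fine (fun x => ∏ j ∈ T, ∏ t ∈ Ico 1 (nj j),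
      (z ^ (a j (gr f x)).val - z ^ (w0 j + t))) := by
    intro T
    induction T using Finset.induction_on with
    | empty => simpa using fine_one
    | insert j T hj ih =>
      have := fine_prod (Ico 1 (nj j)) (fun _ => a j) (fun t => z ^ (w0 j + t)) _ ih
      refine cast ?_ this
      congr 1
      funext x
      rw [prod_insert hj, mul_comm]
  -- the linear factors
  set η : 𝓞 L := z ^ (p ^ 1) with hηdef
  have hbl : ∀ l : H × K →+ ZMod p, ∃ b : H × K →+ ZMod (p ^ (1 + 1)), ∀ g,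
      z ^ (b g).val = η ^ (l g).val := by
    intro l
    obtain ⟨b, hb⟩ := Key.exists_hom (n := p) (m := p ^ 1) (N := p ^ (1 + 1)) (pow_succ p 1).symm l
    exact ⟨b, hb (𝓞 L) z hz1⟩
  have fine_list : ∀ Ls : List ((H × K →+ ZMod p) × ZMod p), ∀ F, fine F →
      fine (fun x => F x * (Ls.map fun l => η ^ (l.1 (gr f x)).val - η ^ l.2.val).prod) := by
    intro Ls
    induction Ls with
    | nil => intro F hF; simpa using hF
    | cons l Ls ih =>
      intro F hF
      obtain ⟨b', hb'⟩ := hbl l.1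
      have h1 := ih _ (fine_step F b' (η ^ l.2.val) hF)
      refine cast ?_ h1
      congr 1
      funext x
      rw [List.map_cons, List.prod_cons, hb']
      ring
  have hfin := fine_list Ls _ (fine_digits univ) 0
  -- local expansions
  have hππ : (z - 1) ∣ (p : 𝓞 L) := pi_dvd_p hζ
  set val : J → H → ℤ := fun j x => if j = j0 then tb p b (a j (gr f x)).val (w0 j) else
    (if (a j (gr f x)).val ≡ w0 j [MOD p] then 1 else 0) with hval
  have hdig : ∀ j x, ∃ u : 𝓞 L, ∏ t ∈ Ico 1 (nj j), (z ^ (a j (gr f x)).val - z ^ (w0 j + t)) =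
        (∏ t ∈ Ico 1 (nj j), (1 - z ^ t)) * u ∧ (z - 1) ∣ u - ((val j x : ℤ) : 𝓞 L) := by
    intro j x
    by_cases hj : j = j0
    · obtain ⟨u, hu, hu'⟩ := digit_factorB hzp2 (dvd_refl (z - 1)) hππ b hb (a j (gr f x)).val (w0 j)
      refine ⟨u, ?_, ?_⟩
      · simp only [hnj, if_pos hj]; exact hu
      · simp only [hval, if_pos hj]; exact hu'
    · obtain ⟨u, hu, hu'⟩ := digit_factor (d := 1) hzp (dvd_refl (z - 1)) hππ
        (a j (gr f x)).val (w0 j)
      rw [pow_one] at hu hu'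
      refine ⟨u, ?_, ?_⟩
      · simp only [hnj, if_neg hj]; exact hu
      · simp only [hval, if_neg hj]; push_cast; exact hu'
  choose u hu1 hu2 using hdig
  have hlin : ∀ (l : (H × K →+ ZMod p) × ZMod p) x, ∃ u : 𝓞 L,
      η ^ (l.1 (gr f x)).val - η ^ l.2.val = (η - 1) * u ∧
      (z - 1) ∣ u - (((l.1 (gr f x)).val : 𝓞 L) - (l.2.val : 𝓞 L)) := by
    intro l x
    exact lin_factor η (z - 1) (sub_one_dvd_pow_sub_one z _) _ _
  choose w hw1 hw2 using hlin
  set C : 𝓞 L := (∏ j, ∏ t ∈ Ico 1 (nj j), (1 - z ^ t)) * (η - 1) ^ Ls.length with hC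
  set U : H → 𝓞 L := fun x => (∏ j, u j x) * (Ls.map fun l => w l x).prod with hU
  have hprod : ∀ x, (∏ j, ∏ t ∈ Ico 1 (nj j), (z ^ (a j (gr f x)).val - z ^ (w0 j + t))) *
      (Ls.map fun l => η ^ (l.1 (gr f x)).val - η ^ l.2.val).prod = C * U x := by
    intro x
    have h1 : (∏ j, ∏ t ∈ Ico 1 (nj j), (z ^ (a j (gr f x)).val - z ^ (w0 j + t))) =
      (∏ j, ∏ t ∈ Ico 1 (nj j), (1 - z ^ t)) * ∏ j, u j x := by
      rw [← prod_mul_distrib]
      exact prod_congr rfl fun j _ => hu1 j x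
    have h2 : ∀ Ls : List ((H × K →+ ZMod p) × ZMod p),
        (Ls.map fun l => η ^ (l.1 (gr f x)).val - η ^ l.2.val).prod =
        (η - 1) ^ Ls.length * (Ls.map fun l => w l x).prod := by
      intro Ls
      induction Ls with
      | nil => simp
      | cons l Ls ih =>
        rw [List.map_cons, List.prod_cons, ih, hw1 l x, List.map_cons, List.prod_cons,
          List.length_cons]
        ring
    rw [h1, h2, hC, hU]
    ring
  have hdvd : (z - 1) ^ M ∣ C * ∑ x, U x := by
    rw [mul_sum]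
    refine cast ?_ hfin
    congr 1
    refine sum_congr rfl fun x _ => ?_
    rw [AddMonoidHom.zero_apply, ZMod.val_zero, pow_zero, one_mul]
    exact hprod x
  obtain ⟨cost, hcost⟩ : ∃ c, c = Fintype.card J * (p - 1) + b * (2 * p - 1) + p * Ls.length := ⟨_, rfl⟩
  have hCc : C ∣ (z - 1) ^ cost := by
    have h1 : (∏ j, ∏ t ∈ Ico 1 (nj j), (1 - z ^ t)) ∣
        (z - 1) ^ (∑ j, if j = j0 then (p - 1) + b * (2 * p - 1) else p - 1) := by
      rw [← prod_pow_eq_pow_sum]
      refine prod_dvd_prod_of_dvd _ _ fun j _ => ?_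
      by_cases hj : j = j0
      · simp only [hnj, if_pos hj]
        exact cost_digitB hζ b hb
      · simp only [hnj, if_neg hj]
        exact cost_one hzp2
    have h2 : (∑ j : J, if j = j0 then (p - 1) + b * (2 * p - 1) else p - 1) =
        Fintype.card J * (p - 1) + b * (2 * p - 1) := by
      have h3 : ∀ j : J, (if j = j0 then (p - 1) + b * (2 * p - 1) else p - 1) =
          (p - 1) + (if j = j0 then b * (2 * p - 1) else 0) := by
        intro j
        split_ifs <;> simp
      rw [sum_congr rfl fun j _ => h3 j, sum_add_distrib, sum_const, card_univ, smul_eq_mul,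
        sum_ite_eq' univ j0, if_pos (mem_univ j0)]
    have h4 : (η - 1) ^ Ls.length ∣ (z - 1) ^ (p * Ls.length) := by
      rw [pow_mul]
      refine pow_dvd_pow_of_dvd ?_ _
      have h5 := cost_lin hζ
      rw [pow_one] at h5
      rw [hηdef, pow_one]
      exact h5
    rw [h2] at h1
    have e : (z - 1) ^ (Fintype.card J * (p - 1) + b * (2 * p - 1) + p * Ls.length) =
        (z - 1) ^ (Fintype.card J * (p - 1) + b * (2 * p - 1)) * (z - 1) ^ (p * Ls.length) :=
      pow_add _ _ _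
    rw [hC, hcost, e]
    exact mul_dvd_mul h1 h4
  have hMc : cost < M := by
    have e : r * (p ^ 1 * (p - 1)) = r * p * (p - 1) := by rw [pow_one, mul_assoc]
    rw [← hcost] at hn
    omega
  have hπU : (z - 1) ∣ ∑ x, U x := by
    refine cancel (c := C) (C := cost * p) hζ hdvd ?_ ?_
    · rw [pow_mul]
      exact pow_dvd_pow_of_dvd hCc p
    · rw [mul_comm]
      exact Nat.mul_lt_mul_of_pos_left hMc hpos
  -- reduction
  have hcong : ∀ x, (z - 1) ∣ U x - (((∏ j, val j x) *
      (Ls.map fun l => ((l.1 (gr f x)).val : ℤ) - (l.2.val : ℤ)).prod : ℤ) : 𝓞 L) := by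
    intro x
    have hmk : ∀ a b : 𝓞 L, (z - 1) ∣ a - b ↔
        Ideal.Quotient.mk (Ideal.span {z - 1}) a = Ideal.Quotient.mk (Ideal.span {z - 1}) b := by
      intro a b
      rw [Ideal.Quotient.eq, Ideal.mem_span_singleton]
    rw [hmk, hU]
    have e2 : ∀ Ls : List ((H × K →+ ZMod p) × ZMod p),
        Ideal.Quotient.mk (Ideal.span {z - 1}) (Ls.map fun l => w l x).prod =
        Ideal.Quotient.mk (Ideal.span {z - 1})
          (((Ls.map fun l => ((l.1 (gr f x)).val : ℤ) - (l.2.val : ℤ)).prod : ℤ) : 𝓞 L) := by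
      intro Ls
      induction Ls with
      | nil => simp
      | cons l Ls ih =>
        rw [List.map_cons, List.prod_cons, map_mul, ih, (hmk _ _).1 (hw2 l x), List.map_cons,
          List.prod_cons, ← map_mul]
        push_cast
        ring_nf
    simp only [map_mul, map_prod, e2, Int.cast_mul, Int.cast_prod]
    congr 1
    exact prod_congr rfl fun j _ => (hmk _ _).1 (hu2 j x)
  have hsumdvd : (z - 1) ∣ ((∑ x, (∏ j, val j x) *
      (Ls.map fun l => ((l.1 (gr f x)).val : ℤ) - (l.2.val : ℤ)).prod : ℤ) : 𝓞 L) := by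
    have h1 : (z - 1) ∣ ∑ x, (U x - (((∏ j, val j x) *
      (Ls.map fun l => ((l.1 (gr f x)).val : ℤ) - (l.2.val : ℤ)).prod : ℤ) : 𝓞 L)) :=
      dvd_sum fun x _ => hcong x
    rw [sum_sub_distrib] at h1
    have h2 := (dvd_sub_right hπU).1 h1
    rw [Int.cast_sum]
    exact h2
  have hdvdp := dvd_of_pi_dvd hζ _ hsumdvd
  have hz0 := (ZMod.intCast_zmod_eq_zero_iff_dvd _ p).2 hdvdp
  rw [Int.cast_sum] at hz0
  refine Eq.trans (sum_congr rfl fun x _ => ?_) hz0
  have e3 : ∀ Ls : List ((H × K →+ ZMod p) × ZMod p),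
      (((Ls.map fun l => ((l.1 (gr f x)).val : ℤ) - (l.2.val : ℤ)).prod : ℤ) : ZMod p) =
      (Ls.map fun l => l.1 (gr f x) - l.2).prod := by
    intro Ls
    induction Ls with
    | nil => simp
    | cons l Ls ih =>
      rw [List.map_cons, List.prod_cons, Int.cast_mul, ih, List.map_cons, List.prod_cons]
      push_cast
      rw [ZMod.natCast_zmod_val, ZMod.natCast_zmod_val]
  have e4 : val j0 x = tb p b (a j0 (gr f x)).val (w0 j0) := by
    simp only [hval, if_true]
  have e5 : ∏ j ∈ univ.erase j0, val j x =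
      ∏ j ∈ univ.erase j0, (if (a j (gr f x)).val ≡ w0 j [MOD p] then 1 else 0) := by
    refine prod_congr rfl fun j hj => ?_
    simp only [hval, if_neg (ne_of_mem_erase hj)]
  have e6 : (((∏ j, val j x) *
      (Ls.map fun l => ((l.1 (gr f x)).val : ℤ) - (l.2.val : ℤ)).prod : ℤ) : ZMod p) =
      ((∏ j, val j x : ℤ) : ZMod p) * (Ls.map fun l => l.1 (gr f x) - l.2).prod := by
    rw [Int.cast_mul, e3]
  rw [e6, ← mul_prod_erase univ (fun j => val j x) (mem_univ j0), e4, e5]

end Pool.Agent.H88.T56
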