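import Pool.Agent.H88.T56.Defs

/-!
# T56 module Sep25: homomorphisms to `ZMod 25`

Copy of Pool/Agent/H38/T35/Sep9.lean (`sep9`, `three_homs`) with `9`, `3`, `27` replaced by `25`, `5`, `125`.
`ph_zero`: `a` with `a (5 • g) = 0` for all `g` is `5 l`: `a g = ((5 * (l g).val : ℕ) : ZMod 25)` (`5 * (a g) = 0`, so `5 ∣ (a g).val`), and `ph a g = l g`.
`ph_add`, `ph_add_hom`: if `5 ∣ u`, `5 ∣ v`, `u, v < 25` then `((u + v) % 25) / 5 = (u / 5 + v / 5) % 5`.
-/

set_option autoImplicit false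

namespace Pool.Agent.H88.T56

open Finset

private theorem Sep25_embed (n : ℕ) (hn : n ∣ 25) (x : ZMod n) (hx : x ≠ 0) :
    ∃ a : ZMod n →+ ZMod 25, a x ≠ 0 := by
  have h25 : n ≤ 25 := Nat.le_of_dvd (by norm_num) hn
  have hc : n = 1 ∨ n = 5 ∨ n = 25 := by
    interval_cases n <;> omega
  rcases hc with rfl | rfl | rfl
  · exact absurd (Subsingleton.elim x 0) hx
  · refine ⟨ZMod.lift 5 ⟨(AddMonoidHom.mulLeft (5 : ZMod 25)).comp (Int.castAddHom (ZMod 25)), by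
      decide⟩, ?_⟩
    revert hx
    revert x
    decide
  · exact ⟨AddMonoidHom.id _, hx⟩

theorem sep25 {G : Type*} [AddCommGroup G] [Finite G] (h25 : ∀ g : G, 25 • g = 0) (g : G)
    (hg : g ≠ 0) : ∃ a : G →+ ZMod 25, a g ≠ 0 := by
  classical
  obtain ⟨ι, _, n, hn, ⟨e⟩⟩ := AddCommGroup.equiv_directSum_zmod_of_finite' G
  have he : e g ≠ 0 := fun h => hg (e.injective (by rw [h, map_zero]))
  obtain ⟨i, hi⟩ : ∃ i, (e g) i ≠ 0 := by
    by_contra hcon
    push Not at hcon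
    exact he (DFinsupp.ext hcon)
  have hdvd : n i ∣ 25 := by
    have h1 : (25 : ℕ) • (DirectSum.of (fun i => ZMod (n i)) i 1) = 0 := by
      have h2 := h25 (e.symm (DirectSum.of (fun i => ZMod (n i)) i 1))
      have h3 := congrArg e h2
      rwa [map_nsmul, AddEquiv.apply_symm_apply, map_zero] at h3
    have h4 := DFunLike.congr_fun h1 i
    rw [← map_nsmul, DirectSum.of_eq_same] at h4
    rw [← ZMod.natCast_eq_zero_iff]
    rw [nsmul_one] at h4
    exact h4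
  obtain ⟨a, ha⟩ := Sep25_embed (n i) hdvd _ hi
  exact ⟨(a.comp (DFinsupp.evalAddMonoidHom i)).comp e.toAddMonoidHom, ha⟩

private theorem Sep25_step {G : Type*} [AddCommGroup G] [Finite G] (P : AddSubgroup G)
    (h125 : Nat.card P ∣ 125) (a : G →+ ZMod 25) (ha : ∃ x ∈ P, a x ≠ 0) :
    5 * Nat.card (P ⊓ a.ker : AddSubgroup G) ≤ Nat.card P ∧
      Nat.card (P ⊓ a.ker : AddSubgroup G) ∣ 125 := by
  have h1 : Nat.card (P ⊓ a.ker : AddSubgroup G) * a.ker.relIndex P = Nat.card P := by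
    have h := AddSubgroup.relIndex_mul_relIndex ⊥ (P ⊓ a.ker) P bot_le inf_le_left
    rwa [AddSubgroup.relIndex_bot_left, AddSubgroup.relIndex_bot_left,
      AddSubgroup.inf_relIndex_left] at h
  have h2 : a.ker.relIndex P ∣ 125 := (Dvd.intro_left _ h1).trans h125
  have h3 : a.ker.relIndex P ≠ 1 := by
    rw [Ne, AddSubgroup.relIndex_eq_one]
    intro h
    obtain ⟨x, hx, hax⟩ := ha
    exact hax (h hx)
  have h4 : 5 ≤ a.ker.relIndex P := by
    by_contra hcon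
    have h5 : a.ker.relIndex P = 0 ∨ a.ker.relIndex P = 2 ∨ a.ker.relIndex P = 3 ∨
        a.ker.relIndex P = 4 := by omega
    rcases h5 with h5 | h5 | h5 | h5 <;> rw [h5] at h2 <;> revert h2 <;> decide
  refine ⟨?_, (Dvd.intro _ h1).trans h125⟩
  calc 5 * Nat.card (P ⊓ a.ker : AddSubgroup G)
      = Nat.card (P ⊓ a.ker : AddSubgroup G) * 5 := Nat.mul_comm _ _
    _ ≤ Nat.card (P ⊓ a.ker : AddSubgroup G) * a.ker.relIndex P := Nat.mul_le_mul_left _ h4
    _ = Nat.card P := h1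

private theorem Sep25_next {G : Type*} [AddCommGroup G] [Finite G] (h25 : ∀ g : G, 25 • g = 0)
    (P : AddSubgroup G) (h125 : Nat.card P ∣ 125) : ∃ b : G →+ ZMod 25,
      (5 * Nat.card (P ⊓ b.ker : AddSubgroup G) ≤ Nat.card P ∨ P = ⊥) ∧
      Nat.card (P ⊓ b.ker : AddSubgroup G) ∣ 125 := by
  by_cases hP : P = ⊥
  · refine ⟨0, Or.inr hP, ?_⟩
    rw [hP, bot_inf_eq]
    simp
  · obtain ⟨x, hx, hx0⟩ := P.bot_or_exists_ne_zero.resolve_left hP
    obtain ⟨b, hb⟩ := sep25 h25 x hx0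
    obtain ⟨h1, h2⟩ := Sep25_step P h125 b ⟨x, hx, hb⟩
    exact ⟨b, Or.inl h1, h2⟩

theorem three_homs25 {G : Type*} [AddCommGroup G] [Finite G] (h25 : ∀ g : G, 25 • g = 0)
    (hP : Nat.card (Set.range fun g : G => 5 • g) = 5 ^ 3) (a : G →+ ZMod 25)
    (ha : ∃ g : G, a (5 • g) ≠ 0) :
    ∃ b c : G →+ ZMod 25, ∀ g : G, a (5 • g) = 0 → b (5 • g) = 0 → c (5 • g) = 0 → 5 • g = 0 := by
  let P : AddSubgroup G := (nsmulAddMonoidHom (α := G) 5).range
  have hPc : Nat.card P = 125 := by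
    have h : ((P : AddSubgroup G) : Set G) = Set.range fun g : G => 5 • g := by
      ext x
      simp [P]
    have h' : Nat.card P = Nat.card (Set.range fun g : G => 5 • g) := by
      rw [← h]; rfl
    rw [h', hP]
    norm_num
  have hmem : ∀ g : G, 5 • g ∈ P := fun g => ⟨g, rfl⟩
  obtain ⟨g0, hg0⟩ := ha
  obtain ⟨h1, h1'⟩ := Sep25_step P (by rw [hPc]) a ⟨5 • g0, hmem g0, hg0⟩
  obtain ⟨b, h2, h2'⟩ := Sep25_next h25 _ h1'
  obtain ⟨c, h3, h3'⟩ := Sep25_next h25 _ h2'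
  refine ⟨b, c, fun g hga hgb hgc => ?_⟩
  have hg : 5 • g ∈ P ⊓ a.ker ⊓ b.ker ⊓ c.ker := ⟨⟨⟨hmem g, hga⟩, hgb⟩, hgc⟩
  have key : ∀ Q : AddSubgroup G, 5 • g ∈ Q → Nat.card Q ≤ 1 → 5 • g = 0 := by
    intro Q hQ hc
    have hpos : 0 < Nat.card Q := Nat.card_pos
    have hQ1 : Q = ⊥ := AddSubgroup.card_eq_one.1 (by omega)
    rw [hQ1] at hQ
    exact (AddSubgroup.mem_bot).1 hQ
  rw [hPc] at h1
  rcases h2 with h2 | h2
  · rcases h3 with h3 | h3
    · exact key _ hg (by omega)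
    · rw [h3] at hg
      exact (AddSubgroup.mem_bot).1 hg.1
  · rw [h2] at hg
    exact (AddSubgroup.mem_bot).1 hg.1.1

private theorem Sep25_cases : ∀ u : ZMod 25, 5 • u = 0 →
    u = 0 ∨ u = 5 ∨ u = 10 ∨ u = 15 ∨ u = 20 := by
  decide

private theorem Sep25_add (u v : ZMod 25) (hu : 5 • u = 0) (hv : 5 • v = 0) :
    ((((u + v).val / 5 : ℕ)) : ZMod 5) = ((u.val / 5 : ℕ) : ZMod 5) + ((v.val / 5 : ℕ) : ZMod 5) := by
  rcases Sep25_cases u hu with rfl | rfl | rfl | rfl | rfl <;>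
  rcases Sep25_cases v hv with rfl | rfl | rfl | rfl | rfl <;> decide

/-- homomorphisms vanishing on `5 G` -/
theorem ph_zero {G : Type*} [AddCommGroup G] (a : G →+ ZMod 25) (ha : ∀ g : G, a (5 • g) = 0) :
    ∃ l : G →+ ZMod 5, ∀ g, ph a g = l g := by
  refine ⟨AddMonoidHom.mk' (fun g => ph a g) fun u v => ?_, fun g => rfl⟩
  show (((a (u + v)).val / 5 : ℕ) : ZMod 5) = (((a u).val / 5 : ℕ) : ZMod 5) +
    (((a v).val / 5 : ℕ) : ZMod 5)
  rw [map_add]
  exact Sep25_add _ _ (by rw [← map_nsmul]; exact ha u) (by rw [← map_nsmul]; exact ha v)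

theorem ph_add {G : Type*} [AddCommGroup G] (a : G →+ ZMod 25) (g g' : G) (hg : 5 • g = 0)
    (hg' : 5 • g' = 0) : ph a (g + g') = ph a g + ph a g' := by
  show (((a (g + g')).val / 5 : ℕ) : ZMod 5) = (((a g).val / 5 : ℕ) : ZMod 5) +
    (((a g').val / 5 : ℕ) : ZMod 5)
  rw [map_add]
  exact Sep25_add _ _ (by rw [← map_nsmul, hg, map_zero]) (by rw [← map_nsmul, hg', map_zero])

theorem ph_sub {G : Type*} [AddCommGroup G] (a : G →+ ZMod 25) (g g' : G) (hg : 5 • g = 0)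
    (hg' : 5 • g' = 0) : ph a (g - g') = ph a g - ph a g' := by
  have h := ph_add a (g - g') g' (by rw [smul_sub, hg, hg', sub_zero]) hg'
  rw [sub_add_cancel] at h
  rw [h, add_sub_cancel_right]

theorem ph_add_hom {G : Type*} [AddCommGroup G] (a b : G →+ ZMod 25) (g : G) (hg : 5 • g = 0) :
    ph (a + b) g = ph a g + ph b g := by
  show ((((a + b) g).val / 5 : ℕ) : ZMod 5) = (((a g).val / 5 : ℕ) : ZMod 5) +
    (((b g).val / 5 : ℕ) : ZMod 5)
  rw [AddMonoidHom.add_apply]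
  exact Sep25_add _ _ (by rw [← map_nsmul, hg, map_zero]) (by rw [← map_nsmul, hg, map_zero])

/-- for `5 • g = 0` the second digit determines whether `a g` is `0` -/
theorem ph_eq_zero {G : Type*} [AddCommGroup G] (a : G →+ ZMod 25) (g : G) (hg : 5 • g = 0)
    (h : ph a g = 0) : a g = 0 := by
  have h1 : 5 • a g = 0 := by rw [← map_nsmul, hg, map_zero]
  have h2 : (((a g).val / 5 : ℕ) : ZMod 5) = 0 := h
  revert h1 h2
  generalize a g = u
  revert u
  decide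

end Pool.Agent.H88.T56
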