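import Pool.Agent.H88.T56.T2b

/-!
# T56 module T2c (copy of H16.RB.T2c): differences in good slices

Sketch.  `card_dp_le`, `card_dp_lt`: `pair_count`; the coset `g + p G` has `p ^ s` elements, and if
`g.1 ∈ p H` it contains elements with first component `0`.  `card_dp_ge`: for each `z` in the slice
`aff_closed` gives `z'` in the slice with `gr f z' - gr f z` congruent to `gr f x - gr f y` modulo `p G`
(`sep`); `z' ≠ z` by `cls_one`.  `good_diff`: `card_dp_ge`, `card_dp_lt`.  `good_inj`: if `x ≠ x'` then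
(by `cls_one`) `y ≠ y'` and the class of `gr f x - gr f x'` has `p ^ s` pairs in the slice `v` and
`p ^ s` pairs in the slice `w`, contradiction to `card_dp_le`; if `x = x'`, `cls_one` for `w`.
-/

set_option autoImplicit false

namespace Pool.Agent.H88.T56

open Finset Pool.Agent.H16.RB Pool.Agent.H88.Pl
open scoped Classical

variable {p s t u : ℕ} [Fact p.Prime] {H K : Type*} [AddCommGroup H] [AddCommGroup K] [Fintype H]
  [Fintype K] {f : H → K}

/-- pairs of points of the graph whose difference is congruent to `g` modulo `p G` -/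
noncomputable def dp (p : ℕ) (f : H → K) (g : H × K) : Finset (H × H) :=
  univ.filter fun z => z.1 ≠ z.2 ∧ ∃ g' : H × K, p • g' = gr f z.1 - gr f z.2 - g

namespace T2c

omit [Fact p.Prime] in
theorem mem_PG {g : H × K} : g ∈ PG p H K ↔ ∃ g' : H × K, p • g' = g := by
  simp [PG]

omit [Fact p.Prime] in
theorem card_dp (hf : IsPlanar f) (g : H × K) :
    (dp p f g).card =
      (univ.filter fun g0 : H × K => g0.1 ≠ 0 ∧ ∃ g' : H × K, p • g' = g0 - g).card := by
  have h := pair_count f hf fun g0 => ∃ g' : H × K, p • g' = g0 - g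
  rw [dp]
  convert h

/-- points of a good slice which cannot be separated are equal -/
theorem eq_of_cls (D : D2 p s t u f) {v : H × K} (hv : v ∈ PG p H K)
    (hc : (sl p f v).card = p ^ s) {x y : H} (hx : x ∈ sl p f v) (hy : y ∈ sl p f v)
    (h : ∀ l : H × K →+ ZMod p, l (gr f x) = l (gr f y)) : x = y := by
  have h1 := D.cls_one v hv hc y hy
  have h2 : x ∈ cls p (gr f) (sl p f v) (gr f y) := by
    simp only [cls, mem_filter]
    exact ⟨hx, h⟩
  have h3 : y ∈ cls p (gr f) (sl p f v) (gr f y) := by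
    simp only [cls, mem_filter]
    exact ⟨hy, fun _ => trivial⟩
  exact card_le_one.1 h1.le x h2 y h3

theorem l_smul (l : H × K →+ ZMod p) (g : H × K) : l (p • g) = 0 := by
  rw [map_nsmul, nsmul_eq_mul, ZMod.natCast_self, zero_mul]

end T2c

/-- there are at most `p ^ s` such pairs -/
theorem D2.card_dp_le (D : D2 p s t u f) (g : H × K) : (dp p f g).card ≤ p ^ s := by
  rw [T2c.card_dp D.hf, ← D.card_PG]
  refine card_le_card_of_injOn (fun g0 => g0 - g) ?_ ?_
  · intro g0 hg0
    rw [mem_coe, mem_filter] at hg0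
    rw [mem_coe, T2c.mem_PG]
    exact hg0.2.2
  · intro a _ b _ hab
    exact sub_left_injective hab

/-- there are less than `p ^ s` such pairs if the first component of `g` is in `p H` -/
theorem D2.card_dp_lt (D : D2 p s t u f) (g : H × K) (h : ∃ a : H, p • a = g.1) :
    (dp p f g).card < p ^ s := by
  obtain ⟨a, ha⟩ := h
  rw [T2c.card_dp D.hf, ← D.card_PG]
  have h0 : (((0 : H), g.2) - g : H × K) ∈ PG p H K := by
    rw [T2c.mem_PG]
    refine ⟨(-a, 0), Prod.ext ?_ ?_⟩
    · simp [ha]
    · simp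
  refine lt_of_le_of_lt (card_le_card_of_injOn (t := (PG p H K).erase (((0 : H), g.2) - g))
    (fun g0 => g0 - g) ?_ ?_) (card_erase_lt_of_mem h0)
  · intro g0 hg0
    rw [mem_coe, mem_filter] at hg0
    rw [mem_coe, mem_erase, T2c.mem_PG]
    refine ⟨fun h1 => hg0.2.1 ?_, hg0.2.2⟩
    have h2 : g0 = ((0 : H), g.2) := sub_left_injective h1
    rw [h2]
  · intro a _ b _ hab
    exact sub_left_injective hab

/-- a difference of two distinct points of a good slice is repeated modulo `p G` -/
theorem D2.card_dp_ge (D : D2 p s t u f) (v : H × K) (hv : v ∈ PG p H K)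
    (hc : (sl p f v).card = p ^ s) (x y : H) (hx : x ∈ sl p f v) (hy : y ∈ sl p f v)
    (hxy : x ≠ y) :
    p ^ s ≤ ((dp p f (gr f x - gr f y)).filter fun z => z.1 ∈ sl p f v ∧ z.2 ∈ sl p f v).card := by
  have hp := D.hp
  have h1 : ∀ z : H, ∃ z' : H, z ∈ sl p f v → z' ∈ sl p f v ∧
      ∀ l : H × K →+ ZMod p, l (gr f z') = l (gr f z) + l (gr f x) - l (gr f y) := by
    intro z
    by_cases hz : z ∈ sl p f v
    · obtain ⟨z', hz', hl⟩ := aff_closed (by omega : p ≠ 2) (gr f) (sl p f v)
        (D.pc v hv hc.le) hc.le (D.cls_one v hv hc) y x z hy hx hz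
      exact ⟨z', fun _ => ⟨hz', hl⟩⟩
    · exact ⟨z, fun h => absurd h hz⟩
  choose F hF using h1
  rw [← hc]
  refine card_le_card_of_injOn (fun z => (F z, z)) ?_ ?_
  · intro z hz
    rw [mem_coe] at hz
    obtain ⟨h2, h3⟩ := hF z hz
    rw [mem_coe, mem_filter, dp, mem_filter]
    refine ⟨⟨mem_univ _, ?_, ?_⟩, h2, hz⟩
    · intro h4
      have h4' : F z = z := h4
      apply hxy
      refine T2c.eq_of_cls D hv hc hx hy fun l => ?_
      have h5 := h3 l
      rw [h4', add_sub_assoc] at h5
      exact sub_eq_zero.1 (left_eq_add.1 h5)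
    · refine sep _ fun l => ?_
      rw [map_sub, map_sub, map_sub, h3 l]
      ring
  · intro a _ b _ hab
    exact (Prod.ext_iff.1 hab).2

/-- no difference of two distinct points of a good slice has its first component in `p H` -/
theorem D2.good_diff (D : D2 p s t u f) (v : H × K) (hv : v ∈ PG p H K)
    (hc : (sl p f v).card = p ^ s) (x y : H) (hx : x ∈ sl p f v) (hy : y ∈ sl p f v)
    (hxy : x ≠ y) (a : H) : p • a ≠ x - y := by
  intro ha
  have h1 := D.card_dp_ge v hv hc x y hx hy hxy
  have h2 := D.card_dp_lt (gr f x - gr f y) ⟨a, ha⟩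
  have h3 := card_filter_le (dp p f (gr f x - gr f y)) fun z => z.1 ∈ sl p f v ∧ z.2 ∈ sl p f v
  omega

/-- good slices are complementary -/
theorem D2.good_inj (D : D2 p s t u f) (v w : H × K) (hv : v ∈ PG p H K) (hw : w ∈ PG p H K)
    (hcv : (sl p f v).card = p ^ s) (hcw : (sl p f w).card = p ^ s) (hvw : v ≠ w)
    (x x' y y' : H) (hx : x ∈ sl p f v) (hx' : x' ∈ sl p f v) (hy : y ∈ sl p f w)
    (hy' : y' ∈ sl p f w)
    (h : ∃ g' : H × K, p • g' = (gr f x - gr f y) - (gr f x' - gr f y')) : x = x' ∧ y = y' := by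
  obtain ⟨g', hg'⟩ := h
  have hl : ∀ l : H × K →+ ZMod p, l (gr f x) - l (gr f y) - (l (gr f x') - l (gr f y')) = 0 := by
    intro l
    have := T2c.l_smul l g'
    rw [hg', map_sub, map_sub, map_sub] at this
    exact this
  by_cases hxx : x = x'
  · subst hxx
    refine ⟨rfl, T2c.eq_of_cls D hw hcw hy hy' fun l => ?_⟩
    have h1 := hl l
    have h2 : l (gr f y') - l (gr f y) = 0 := by
      rw [← h1]; ring
    exact (sub_eq_zero.1 h2).symm
  · exfalso
    have hyy : y ≠ y' := by
      intro h1
      subst h1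
      apply hxx
      refine T2c.eq_of_cls D hv hcv hx hx' fun l => ?_
      have h1 := hl l
      have h2 : l (gr f x) - l (gr f x') = 0 := by
        rw [← h1]; ring
      exact sub_eq_zero.1 h2
    have h1 := D.card_dp_ge v hv hcv x x' hx hx' hxx
    have h2 := D.card_dp_ge w hw hcw y y' hy hy' hyy
    have h3 : dp p f (gr f y - gr f y') = dp p f (gr f x - gr f x') := by
      ext z
      simp only [dp, mem_filter, mem_univ, true_and]
      refine and_congr_right fun _ => ?_
      constructor
      · rintro ⟨a, ha⟩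
        refine ⟨a - g', ?_⟩
        rw [smul_sub, ha, hg']
        abel
      · rintro ⟨a, ha⟩
        refine ⟨a + g', ?_⟩
        rw [smul_add, ha, hg']
        abel
    rw [h3] at h2
    have h4 := D.card_dp_le (gr f x - gr f x')
    have h5 : Disjoint
        ((dp p f (gr f x - gr f x')).filter fun z => z.1 ∈ sl p f v ∧ z.2 ∈ sl p f v)
        ((dp p f (gr f x - gr f x')).filter fun z => z.1 ∈ sl p f w ∧ z.2 ∈ sl p f w) := by
      rw [disjoint_left]
      intro z hz hz'
      rw [mem_filter] at hz hz'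
      have h6 := hz.2.1
      have h7 := hz'.2.1
      rw [sl, mem_filter] at h6 h7
      exact hvw (h6.2.symm.trans h7.2)
    have h6 := card_union_of_disjoint h5
    have h7 : (((dp p f (gr f x - gr f x')).filter fun z => z.1 ∈ sl p f v ∧ z.2 ∈ sl p f v) ∪
        ((dp p f (gr f x - gr f x')).filter fun z => z.1 ∈ sl p f w ∧ z.2 ∈ sl p f w)).card ≤
        (dp p f (gr f x - gr f x')).card :=
      card_le_card (union_subset (filter_subset _ _) (filter_subset _ _))
    have h8 : 0 < p ^ s := pow_pos (by have := D.hp; omega) _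
    omega

end Pool.Agent.H88.T56
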