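import Pool.Agent.H88.T56.T2c

/-!
# T56 module T2d (copy of H16.RB.T2d): the two inequalities

Sketch.  Let `w` be the small slice.  `u_le_t`: fix `h = p • a ≠ 0` in `H` (`u_pos`).  The `x` with
`p • (f x - f (x - h)) = 0` (as many as `K[p]`, i.e. `p ^ (s + u)`) have `p • x = w.1`, otherwise the
slice of `x` is good (`good`) and contradicts `good_diff`; there are `p ^ (s + t)` such `x`.
`pairs_good`: by `good_inj` the map `(x, y, g') ↦ gr f x - gr f y + g'` from
`sl v × sl w × p G` to `{g | p • g = v - w}` is injective, both sides have `p ^ (3 s)` elements; restrict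
to first component in `p H`.  `t_le_u`: fix `o ≠ 0` in `p K`.  The pairs `(x, y)` with
`x - y ∈ p H`, `x ≠ y`, `p • (f x - f y) = o` are `(p ^ u - 1) p ^ (s + u)` by `pair_count`; those with
`p • x ≠ w.1` are `(p ^ s - p ^ t) p ^ (2 u)` by `pairs_good` and `good` (`v`, `v - (0, o)`): the same
number.  So there is none with `p • x = w.1`; hence for fixed `h ≠ 0` in `p H` and `p • x = w.1` always
`p • (f x - f (x - h)) = 0`, and `x ↦ f x - f (x - h)` is injective into `K[p]`:
`p ^ (s + t) ≤ p ^ (s + u)`.
-/

set_option autoImplicit false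

namespace Pool.Agent.H88.T56

open Finset Pool.Agent.H16.RB Pool.Agent.H88.Pl
open scoped Classical

variable {p s t u : ℕ} [Fact p.Prime] {H K : Type*} [AddCommGroup H] [AddCommGroup K] [Fintype H]
  [Fintype K] {f : H → K}

private theorem mem_PGd {v : H × K} : v ∈ PG p H K ↔ ∃ g : H × K, p • g = v := by
  unfold PG
  rw [Finset.mem_image]
  simp only [mem_univ, true_and]

private theorem mem_sld {v : H × K} {x : H} : x ∈ sl p f v ↔ p • gr f x = v := by
  unfold sl
  rw [Finset.mem_filter]
  simp only [mem_univ, true_and]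

private theorem gr_fst (x : H) : (gr f x).1 = x := rfl

private theorem gr_snd (x : H) : (gr f x).2 = f x := rfl

private theorem exHd (D : D2 p s t u f) : ∃ a : H, p • a ≠ 0 := by
  by_contra hcon
  push Not at hcon
  have h1 : (univ.image fun h : H => p • h).card ≤ 1 := by
    apply Finset.card_le_one.2
    intro a ha b hb
    simp only [Finset.mem_image, mem_univ, true_and] at ha hb
    obtain ⟨a', rfl⟩ := ha
    obtain ⟨b', rfl⟩ := hb
    rw [hcon, hcon]
  have h2 := D.u_pos
  have h3 : p ^ 1 ≤ p ^ u := Nat.pow_le_pow_right (by have := D.hp; omega) h2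
  have h4 := D.hp
  rw [D.hu] at h1
  rw [pow_one] at h3
  omega

private theorem exKd (D : D2 p s t u f) : ∃ a : K, p • a ≠ 0 := by
  by_contra hcon
  push Not at hcon
  have h1 : (univ.image fun h : K => p • h).card ≤ 1 := by
    apply Finset.card_le_one.2
    intro a ha b hb
    simp only [Finset.mem_image, mem_univ, true_and] at ha hb
    obtain ⟨a', rfl⟩ := ha
    obtain ⟨b', rfl⟩ := hb
    rw [hcon, hcon]
  have h2 := D.t_pos
  have h3 : p ^ 1 ≤ p ^ t := Nat.pow_le_pow_right (by have := D.hp; omega) h2
  have h4 := D.hp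
  rw [D.ht] at h1
  rw [pow_one] at h3
  omega

private theorem ppHd (D : D2 p s t u f) (a : H) : p • (p • a) = 0 :=
  congrArg Prod.fst (D.h2 (a, 0))

private theorem ppKd (D : D2 p s t u f) (b : K) : p • (p • b) = 0 :=
  congrArg Prod.snd (D.h2 (0, b))

private theorem bijd (D : D2 p s t u f) {h : H} (hh : h ≠ 0) :
    Function.Bijective fun x => f x - f (x - h) := by
  have h1 := D.hf h hh
  have h2 : (fun x => f x - f (x - h)) = (fun x => f (h + x) - f x) ∘ (fun x => x - h) := by
    funext x
    simp only [Function.comp_apply, add_sub_cancel]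
  rw [h2]
  exact h1.comp (Equiv.subRight h).bijective

theorem D2.u_le_t (D : D2 p s t u f) : u ≤ t := by
  have hp5 := D.hp
  obtain ⟨w, hw, hcw⟩ := D.exists_small
  obtain ⟨a, ha⟩ := exHd D
  have hbij := bijd D ha
  have hph := ppHd D a
  have hX : (univ.filter fun x : H => p • (f x - f (x - p • a)) = 0).card = p ^ (s + u) := by
    rw [← D.card_pK 0, smul_zero]
    apply Finset.card_bij (fun x _ => f x - f (x - p • a))
    · intro x hx
      simpa only [mem_filter, mem_univ, true_and] using hx
    · intro x _ y _ hxy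
      exact hbij.1 hxy
    · intro k hk
      obtain ⟨x, hx⟩ := hbij.2 k
      refine ⟨x, ?_, hx⟩
      simp only [mem_filter, mem_univ, true_and] at hk ⊢
      have hx' : f x - f (x - p • a) = k := hx
      rw [hx', hk]
  obtain ⟨g, hg⟩ := mem_PGd.1 hw
  have hsub : (univ.filter fun x : H => p • (f x - f (x - p • a)) = 0) ⊆
      (univ.filter fun x : H => p • x = p • g.1) := by
    intro x hx
    simp only [mem_filter, mem_univ, true_and] at hx ⊢
    by_contra hne
    have hv : p • gr f x ∈ PG p H K := mem_PGd.2 ⟨_, rfl⟩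
    have hvw : (p • gr f x).1 ≠ w.1 := by
      rw [← hg]
      exact hne
    have hgood := D.good (p • gr f x) w hv hw hcw hvw
    have hx1 : x ∈ sl p f (p • gr f x) := mem_sld.2 rfl
    have hy1 : x - p • a ∈ sl p f (p • gr f x) := by
      rw [mem_sld]
      apply Prod.ext
      · change p • (x - p • a) = p • x
        rw [smul_sub, hph, sub_zero]
      · change p • f (x - p • a) = p • f x
        rw [smul_sub] at hx
        exact (sub_eq_zero.1 hx).symm
    refine D.good_diff (p • gr f x) hv hgood x (x - p • a) hx1 hy1 ?_ a ?_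
    · intro he
      apply ha
      exact (sub_eq_self.1 he.symm)
    · rw [sub_sub_cancel]
  have hle := Finset.card_le_card hsub
  rw [hX, D.card_pH g.1] at hle
  have := (Nat.pow_le_pow_iff_right (show 1 < p by omega)).1 hle
  omega

/-- pairs in two different good slices with difference of the first components in `p H` -/
theorem D2.pairs_good (D : D2 p s t u f) (v w : H × K) (hv : v ∈ PG p H K) (hw : w ∈ PG p H K)
    (hcv : (sl p f v).card = p ^ s) (hcw : (sl p f w).card = p ^ s) (hvw : v ≠ w)
    (h1 : v.1 = w.1) :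
    (univ.filter fun z : H × H => z.1 ∈ sl p f v ∧ z.2 ∈ sl p f w ∧
      ∃ a : H, p • a = z.1 - z.2).card * p ^ t = p ^ (s + u) := by
  have hp5 := D.hp
  have hut := D.hut
  obtain ⟨gv, hgv⟩ := mem_PGd.1 hv
  obtain ⟨gw, hgw⟩ := mem_PGd.1 hw
  -- the target
  set T : Finset (H × K) := univ.filter fun g : H × K => p • g = v - w with hT
  have hTc : T.card = p ^ (3 * s) := by
    have h2 : T = (univ.filter fun h : H => p • h = p • (gv - gw).1) ×ˢ
        (univ.filter fun k : K => p • k = p • (gv - gw).2) := by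
      ext ⟨h, k⟩
      simp only [hT, mem_filter, mem_univ, true_and, mem_product]
      rw [← hgv, ← hgw, ← smul_sub, Prod.ext_iff]
      rfl
    rw [h2, card_product, D.card_pH, D.card_pK, ← pow_add]
    congr 1
    omega
  -- the source
  set S : Finset ((H × H) × (H × K)) := (sl p f v ×ˢ sl p f w) ×ˢ PG p H K with hS
  have hSc : S.card = p ^ (3 * s) := by
    rw [hS, card_product, card_product, hcv, hcw, D.card_PG, ← pow_add, ← pow_add]
    congr 1
    omega
  set Φ : (H × H) × (H × K) → H × K := fun z => gr f z.1.1 - gr f z.1.2 + z.2 with hΦ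
  have hmaps : ∀ z ∈ S, Φ z ∈ T := by
    intro z hz
    rw [hS, mem_product, mem_product, mem_sld, mem_sld, mem_PGd] at hz
    obtain ⟨⟨hz1, hz2⟩, g, hg⟩ := hz
    rw [hT, mem_filter]
    refine ⟨mem_univ _, ?_⟩
    change p • (gr f z.1.1 - gr f z.1.2 + z.2) = v - w
    rw [smul_add, smul_sub, hz1, hz2, ← hg, D.h2, add_zero]
  have hinj : Set.InjOn Φ (S : Set ((H × H) × (H × K))) := by
    intro z hz z' hz' hzz
    rw [Finset.mem_coe, hS, mem_product, mem_product, mem_PGd] at hz hz'
    obtain ⟨⟨hz1, hz2⟩, g, hg⟩ := hz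
    obtain ⟨⟨hz1', hz2'⟩, g', hg'⟩ := hz'
    have hzz' : gr f z.1.1 - gr f z.1.2 + z.2 = gr f z'.1.1 - gr f z'.1.2 + z'.2 := hzz
    have h3 := D.good_inj v w hv hw hcv hcw hvw z.1.1 z'.1.1 z.1.2 z'.1.2 hz1 hz1' hz2 hz2'
      ⟨g' - g, by
        rw [smul_sub, hg, hg', sub_eq_sub_iff_add_eq_add, add_comm, ← hzz']⟩
    obtain ⟨h4, h5⟩ := h3
    have h6 : z.2 = z'.2 := by
      rw [h4, h5] at hzz'
      exact add_left_cancel hzz'
    exact Prod.ext (Prod.ext h4 h5) h6
  have himg : S.image Φ = T := by
    apply Finset.eq_of_subset_of_card_le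
    · intro g hg
      obtain ⟨z, hz, rfl⟩ := Finset.mem_image.1 hg
      exact hmaps z hz
    · rw [Finset.card_image_of_injOn hinj, hSc, hTc]
  -- restriction
  set N : Finset (H × H) := univ.filter fun z : H × H => z.1 ∈ sl p f v ∧ z.2 ∈ sl p f w ∧
      ∃ a : H, p • a = z.1 - z.2 with hN
  have hTr : (T.filter fun g => ∃ a : H, p • a = g.1).card = p ^ u * p ^ (s + u) := by
    have h2 : (T.filter fun g => ∃ a : H, p • a = g.1) = (univ.image fun h : H => p • h) ×ˢ
        (univ.filter fun k : K => p • k = p • (gv - gw).2) := by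
      ext ⟨h, k⟩
      simp only [hT, mem_filter, mem_univ, true_and, mem_product, Finset.mem_image]
      constructor
      · rintro ⟨h3, a, ha⟩
        refine ⟨⟨a, ha⟩, ?_⟩
        rw [← hgv, ← hgw, ← smul_sub] at h3
        exact congrArg Prod.snd h3
      · rintro ⟨⟨a, ha⟩, h3⟩
        refine ⟨?_, a, ha⟩
        apply Prod.ext
        · change p • h = v.1 - w.1
          rw [h1, sub_self, ← ha, ppHd D]
        · change p • k = v.2 - w.2
          rw [h3, ← hgv, ← hgw, ← Prod.snd_sub, ← smul_sub]
          rfl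
    rw [h2, card_product, D.hu, D.card_pK]
  have hNr : (T.filter fun g => ∃ a : H, p • a = g.1).card = N.card * p ^ s := by
    rw [← D.card_PG, ← card_product]
    symm
    apply Finset.card_bij (fun z _ => Φ z)
    · intro z hz
      rw [mem_product, hN, mem_filter] at hz
      obtain ⟨⟨_, hz1, hz2, a, ha⟩, hz3⟩ := hz
      rw [mem_filter]
      refine ⟨hmaps z ?_, ?_⟩
      · rw [hS, mem_product, mem_product]
        exact ⟨⟨hz1, hz2⟩, hz3⟩
      · obtain ⟨g, hg⟩ := mem_PGd.1 hz3
        refine ⟨a + g.1, ?_⟩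
        change p • (a + g.1) = z.1.1 - z.1.2 + z.2.1
        rw [smul_add, ha, ← hg]
        rfl
    · intro z hz z' hz' hzz
      rw [mem_product, hN, mem_filter] at hz hz'
      obtain ⟨⟨_, hz1, hz2, _⟩, hz3⟩ := hz
      obtain ⟨⟨_, hz1', hz2', _⟩, hz3'⟩ := hz'
      apply hinj _ _ hzz
      · rw [Finset.mem_coe, hS, mem_product, mem_product]
        exact ⟨⟨hz1, hz2⟩, hz3⟩
      · rw [Finset.mem_coe, hS, mem_product, mem_product]
        exact ⟨⟨hz1', hz2'⟩, hz3'⟩
    · intro g hg
      rw [mem_filter] at hg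
      obtain ⟨hgT, a, ha⟩ := hg
      rw [← himg, Finset.mem_image] at hgT
      obtain ⟨z, hz, rfl⟩ := hgT
      refine ⟨z, ?_, rfl⟩
      rw [hS, mem_product, mem_product] at hz
      rw [mem_product, hN, mem_filter]
      refine ⟨⟨mem_univ _, hz.1.1, hz.1.2, ?_⟩, hz.2⟩
      obtain ⟨g, hg⟩ := mem_PGd.1 hz.2
      refine ⟨a - g.1, ?_⟩
      have ha' : p • a = z.1.1 - z.1.2 + z.2.1 := ha
      have hg' : p • g.1 = z.2.1 := congrArg Prod.fst hg
      rw [smul_sub, ha', hg', add_sub_cancel_right]
  rw [hTr] at hNr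
  have hpu : 0 < p ^ u := pow_pos (by omega) u
  apply Nat.eq_of_mul_eq_mul_left hpu
  rw [hNr, ← hut, pow_add]
  ring

theorem D2.t_le_u (D : D2 p s t u f) : t ≤ u := by
  have hp5 := D.hp
  have hut := D.hut
  obtain ⟨w, hw, hcw⟩ := D.exists_small
  obtain ⟨gw, hgw⟩ := mem_PGd.1 hw
  -- there is no pair over the small slice
  have hnone : ∀ b : K, p • b ≠ 0 → ∀ x y : H, x ≠ y → (∃ a : H, p • a = x - y) →
      p • (f x - f y) = p • b → p • x ≠ w.1 := by
    intro b hb
    obtain ⟨Q, hQ⟩ : ∃ Q : H × K → Prop, ∀ g, Q g ↔ ((∃ a : H, p • a = g.1) ∧ p • g.2 = p • b) :=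
      ⟨_, fun _ => Iff.rfl⟩
    set A : Finset (H × H) := univ.filter fun z : H × H => z.1 ≠ z.2 ∧
      Q (gr f z.1 - gr f z.2) with hA
    have hAc : A.card + p ^ (s + u) = p ^ u * p ^ (s + u) := by
      have h1 := pair_count f D.hf Q
      rw [hA, h1]
      have h2 : (univ.filter fun g : H × K => g.1 ≠ 0 ∧ Q g) =
          ((univ.image fun h : H => p • h).erase 0) ×ˢ
            (univ.filter fun k : K => p • k = p • b) := by
        ext ⟨h, k⟩
        simp only [mem_filter, mem_univ, true_and, mem_product, Finset.mem_image, mem_erase,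
          and_assoc, hQ]
      rw [h2, card_product, D.card_pK, card_erase_of_mem, D.hu]
      · have : 0 < p ^ u := pow_pos (by omega) u
        obtain ⟨m, hm⟩ := Nat.exists_eq_succ_of_ne_zero this.ne'
        rw [hm]
        simp only [Nat.succ_eq_add_one, Nat.add_sub_cancel]
        ring
      · rw [Finset.mem_image]
        exact ⟨0, mem_univ _, smul_zero p⟩
    -- pairs outside the small slice
    set B : Finset (H × H) := A.filter fun z => p • z.1 ≠ w.1 with hB
    set V : Finset (H × K) := (PG p H K).filter fun v => v.1 ≠ w.1 with hV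
    have hVc : V.card + p ^ t = p ^ s := by
      have h1 := (D.sum_fst gw.1).2
      rw [← h1, ← D.card_PG, hV, add_comm]
      have h2 : p • gw.1 = w.1 := by
        rw [← hgw]
        rfl
      rw [h2]
      exact Finset.card_filter_add_card_filter_not (fun v : H × K => v.1 = w.1)
    have hBsum : B.card = ∑ v ∈ V, (univ.filter fun z : H × H => z.1 ∈ sl p f v ∧
        z.2 ∈ sl p f (v - p • ((0 : H), b)) ∧ ∃ a : H, p • a = z.1 - z.2).card := by
      rw [← Finset.card_sigma V]
      apply Finset.card_bij (fun z _ => (⟨p • gr f z.1, z⟩ : Sigma fun _ : H × K => H × H))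
      · intro z hz
        rw [hB, mem_filter, hA, mem_filter, hQ] at hz
        obtain ⟨⟨_, hz1, ⟨a, ha⟩, hz2⟩, hz3⟩ := hz
        rw [Finset.mem_sigma]
        refine ⟨?_, ?_⟩
        · rw [hV, mem_filter]
          exact ⟨mem_PGd.2 ⟨_, rfl⟩, hz3⟩
        · rw [mem_filter]
          refine ⟨mem_univ _, mem_sld.2 rfl, ?_, a, ha⟩
          rw [mem_sld]
          apply Prod.ext
          · change p • z.2 = p • z.1 - p • (0 : H)
            have ha' : p • a = z.1 - z.2 := ha
            have h3 : p • (z.1 - z.2) = 0 := by rw [← ha', ppHd D]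
            rw [smul_sub, sub_eq_zero] at h3
            rw [smul_zero, sub_zero, h3]
          · change p • f z.2 = p • f z.1 - p • b
            have hz2' : p • (f z.1 - f z.2) = p • b := hz2
            rw [← hz2', smul_sub, sub_sub_cancel]
      · intro z hz z' hz' hzz
        exact (eq_of_heq (Sigma.mk.inj hzz).2)
      · rintro ⟨v, z⟩ hvz
        rw [Finset.mem_sigma, hV, mem_filter, mem_filter, mem_sld, mem_sld] at hvz
        obtain ⟨⟨hv1, hv2⟩, _, hz1, hz2, a, ha⟩ := hvz
        dsimp only at hv1 hv2 hz1 hz2 ha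
        refine ⟨z, ?_, ?_⟩
        · rw [hB, mem_filter, hA, mem_filter, hQ]
          refine ⟨⟨mem_univ _, ?_, ⟨a, ha⟩, ?_⟩, ?_⟩
          · intro he
            rw [← he, hz1] at hz2
            apply hb
            have h3 : p • ((0 : H), b) = 0 := by
              have h4 : v - p • ((0 : H), b) = v - 0 := by rw [← hz2, sub_zero]
              exact sub_right_injective h4
            exact congrArg Prod.snd h3
          · change p • (f z.1 - f z.2) = p • b
            have h3 : p • gr f z.1 - p • gr f z.2 = p • ((0 : H), b) := by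
              rw [hz1, hz2, sub_sub_cancel]
            rw [← smul_sub] at h3
            exact congrArg Prod.snd h3
          · rw [← hz1] at hv2
            exact hv2
        · rw [hz1]
    have hBc : B.card * p ^ t = V.card * p ^ (s + u) := by
      rw [hBsum, Finset.sum_mul]
      have h1 : ∀ v ∈ V, (univ.filter fun z : H × H => z.1 ∈ sl p f v ∧
        z.2 ∈ sl p f (v - p • ((0 : H), b)) ∧ ∃ a : H, p • a = z.1 - z.2).card * p ^ t =
          p ^ (s + u) := by
        intro v hv
        rw [hV, mem_filter] at hv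
        obtain ⟨hv1, hv2⟩ := hv
        have hfst : v.1 = (v - p • ((0 : H), b)).1 := by
          change v.1 = v.1 - p • (0 : H)
          rw [smul_zero, sub_zero]
        have hv' : v - p • ((0 : H), b) ∈ PG p H K := by
          obtain ⟨g, hg⟩ := mem_PGd.1 hv1
          exact mem_PGd.2 ⟨g - ((0 : H), b), by rw [smul_sub, hg]⟩
        apply D.pairs_good v (v - p • ((0 : H), b)) hv1 hv'
        · exact D.good v w hv1 hw hcw hv2
        · exact D.good _ w hv' hw hcw (by rw [← hfst]; exact hv2)
        · intro he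
          apply hb
          have h3 : p • ((0 : H), b) = 0 := by
            have h4 : v - p • ((0 : H), b) = v - 0 := by rw [← he, sub_zero]
            exact sub_right_injective h4
          exact congrArg Prod.snd h3
        · exact hfst
      rw [Finset.sum_congr rfl h1, Finset.sum_const, smul_eq_mul]
    have hBA : B.card = A.card := by
      have hpt : 0 < p ^ t := pow_pos (by omega) t
      apply Nat.eq_of_mul_eq_mul_right hpt
      rw [hBc]
      have h1 : (V.card + p ^ t) * p ^ (s + u) = (A.card + p ^ (s + u)) * p ^ t := by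
        rw [hVc, hAc, ← hut]
        ring
      rw [add_mul, add_mul, mul_comm (p ^ t) (p ^ (s + u))] at h1
      exact Nat.add_right_cancel h1
    have hBeq : B = A := by
      apply Finset.eq_of_subset_of_card_le (Finset.filter_subset _ _)
      rw [hBA]
    intro x y hxy hex hfxy
    have hmem : (x, y) ∈ A := by
      rw [hA, mem_filter, hQ]
      exact ⟨mem_univ _, hxy, hex, hfxy⟩
    rw [← hBeq, hB, mem_filter] at hmem
    exact hmem.2
  obtain ⟨a, ha⟩ := exHd D
  have hbij := bijd D ha
  have hle : (univ.filter fun x : H => p • x = p • gw.1).card ≤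
      (univ.filter fun k : K => p • k = p • (0 : K)).card := by
    apply Finset.card_le_card_of_injOn (fun x => f x - f (x - p • a))
    · intro x hx
      rw [Finset.mem_coe, mem_filter] at hx
      rw [Finset.mem_coe, mem_filter]
      refine ⟨mem_univ _, ?_⟩
      rw [smul_zero]
      by_contra hne
      refine hnone (f x - f (x - p • a)) hne x (x - p • a) ?_ ⟨a, ?_⟩ rfl ?_
      · intro he
        exact ha (sub_eq_self.1 he.symm)
      · rw [sub_sub_cancel]
      · rw [hx.2, ← hgw]
        rfl
    · intro x _ y _ hxy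
      exact hbij.1 hxy
  rw [D.card_pH, D.card_pK] at hle
  have := (Nat.pow_le_pow_iff_right (show 1 < p by omega)).1 hle
  omega

theorem D2.eq (D : D2 p s t u f) : t = u :=
  le_antisymm D.t_le_u D.u_le_t

end Pool.Agent.H88.T56
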