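import Pool.Agent.H88.T56.Key5
import Pool.Agent.H88.T56.Sep25

/-!
# T56 module Top: the top digit kills

Induction on `b`; `S = sl 5 f (5 • g0)`, `φ x = ph a (gr f x - g0)` (`5 • (gr f x - g0) = 0` for `x ∈ S`).
If `a (5 • g) = 0` for all `g`: `φ x = l (gr f x) - l g0` for a homomorphism `l` (`ph_zero`), so this is a product of `b + L.length < 10` factors, `sl_kills` (Pool/Agent/H16/RB/Rank.lean) with `n = 10`.
Otherwise take `b'`, `c'` from `three_homs25` and apply `keyB` with `J = Fin 3`, `![a, b', c']`, `w0 j = (a j g0).val`, `j0 = 0`, `Ls = L`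
(`2 (3 * 4 + 9 b + 5 L.length) < 6 * 5 * 4`): all three digits match iff `5 • gr f x = 5 • g0`; then `(a (gr f x)).val = (a g0).val + 5 k` in `ℤ`, `k = φ x` modulo `5`, and modulo `5`
`tb 5 b … = ± (k - 1 + 5 …).choose b`, so `b! * tb = ± (φ - 1) (φ - 2) … (φ - b)` (`descPochhammer`, or the cases `b = 0, 1, 2, 3` by hand), which is `± φ ^ b` plus a combination of the lower powers of `φ`.
-/

set_option autoImplicit false

namespace Pool.Agent.H88.T56

open Finset Pool.Agent.H88.Pl Pool.Agent.H16.RB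
open scoped Classical

variable {H K : Type*} [AddCommGroup H] [AddCommGroup K] [Fintype H] [Fintype K]

/-- the fifth of an element of `5 ZMod 25` -/
private def Top_phi (w : ZMod 25) : ZMod 5 := ((w.val / 5 : ℕ) : ZMod 5)

/-- the product `(t - 1) (t - 2) … (t - b)` -/
private def Top_D (b : ℕ) (t : ZMod 5) : ZMod 5 := ∏ i ∈ range b, (t - 1 - (i : ZMod 5))

private theorem Top_N : ∀ u v : ZMod 25, 5 • (u - v) = 0 →
    (((u.val + 5 ^ 2 * (v.val + 1) - v.val) / 5 - 1 : ℕ) : ZMod 5) = Top_phi (u - v) - 1 := by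
  unfold Top_phi
  decide

private theorem Top_dvd : ∀ u v : ZMod 25,
    (((5 : ℕ) : ℤ) ∣ (u.val : ℤ) - (v.val : ℕ)) ↔ 5 • (u - v) = 0 := by
  decide

private theorem Top_mod : ∀ u v : ZMod 25, (u.val ≡ v.val [MOD 5]) ↔ 5 • (u - v) = 0 := by
  unfold Nat.ModEq
  decide

private theorem Top_desc (n b : ℕ) :
    ((n.descFactorial b : ℕ) : ZMod 5) = ∏ i ∈ range b, ((n : ZMod 5) - (i : ZMod 5)) := by
  induction b with
  | zero => simp
  | succ k ih =>
    rw [Nat.descFactorial_succ, Nat.cast_mul, ih, prod_range_succ, mul_comm]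
    by_cases h : k ≤ n
    · rw [Nat.cast_sub h]
    · have h1 : ∏ i ∈ range k, ((n : ZMod 5) - (i : ZMod 5)) = 0 :=
        prod_eq_zero (mem_range.2 (not_le.1 h)) (sub_self _)
      rw [h1, zero_mul, zero_mul]

private theorem Top_tb (b : ℕ) (u v : ZMod 25) :
    ((Nat.factorial b : ℕ) : ZMod 5) * ((tb 5 b u.val v.val : ℤ) : ZMod 5) =
      if 5 • (u - v) = 0 then (-1) ^ ((b + 1) * 5 - 1) * Top_D b (Top_phi (u - v)) else 0 := by
  unfold tb
  by_cases h : 5 • (u - v) = 0
  · rw [if_pos ((Top_dvd u v).2 h), if_pos h]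
    have h1 := Top_N u v h
    set N : ℕ := (u.val + 5 ^ 2 * (v.val + 1) - v.val) / 5 - 1 with hN
    have h2 : (((Nat.factorial b : ℕ) * N.choose b : ℕ) : ZMod 5) = Top_D b (Top_phi (u - v)) := by
      rw [← Nat.descFactorial_eq_factorial_mul_choose, Top_desc, h1]
      rfl
    rw [← h2]
    push_cast
    ring
  · rw [if_neg (mt (Top_dvd u v).1 h), if_neg h, Int.cast_zero, mul_zero]

private theorem Top_neg : (-1 : ZMod 5) ≠ 0 := by
  decide

private theorem Top_p1 : ∀ t : ZMod 5, t ^ 1 = Top_D 1 t + t ^ 0 := by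
  unfold Top_D
  decide

private theorem Top_p2 : ∀ t : ZMod 5, t ^ 2 = Top_D 2 t + 3 * t ^ 1 - 2 * t ^ 0 := by
  unfold Top_D
  decide

private theorem Top_p3 : ∀ t : ZMod 5, t ^ 3 = Top_D 3 t + 6 * t ^ 2 - 11 * t ^ 1 + 6 * t ^ 0 := by
  unfold Top_D
  decide

/-- the sums of the products `(φ - 1) … (φ - b)`, second case -/
private theorem Top_main (hH : Fintype.card H = 5 ^ 6) (f : H → K)
    (hf : IsPlanar f) (h25 : ∀ g : H × K, 25 • g = 0)
    (hP : Nat.card (Set.range fun g : H × K => 5 • g) = 5 ^ 3) (a : H × K →+ ZMod 25)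
    (ha : ∃ g : H × K, a (5 • g) ≠ 0) (g0 : H × K)
    (b : ℕ) (hb : b ≤ 3) (L : List ((H × K →+ ZMod 5) × ZMod 5))
    (hL : 12 + 9 * b + 5 * L.length < 60) :
    ∑ x ∈ sl 5 f (5 • g0), Top_D b (Top_phi (a (gr f x - g0))) *
      (L.map fun l => l.1 (gr f x) - l.2).prod = 0 := by
  have : Fact (Nat.Prime 5) := ⟨Nat.prime_five⟩
  obtain ⟨b', c, hbc⟩ := three_homs25 h25 hP a ha
  have h1 := keyB (p := 5) (r := 6) (by norm_num) hH f hf (J := Fin 3) 0 b (by omega)
    (![a, b', c] : Fin 3 → (H × K →+ ZMod 25))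
    (fun j => ((![a, b', c] : Fin 3 → (H × K →+ ZMod 25)) j g0).val) L (by
      rw [Fintype.card_fin]
      omega)
  have h2 : ∀ x : H, ((Nat.factorial b : ℕ) : ZMod 5) *
      ((tb 5 b ((![a, b', c] : Fin 3 → (H × K →+ ZMod 25)) 0 (gr f x)).val
      ((![a, b', c] : Fin 3 → (H × K →+ ZMod 25)) 0 g0).val *
      ∏ j ∈ (univ : Finset (Fin 3)).erase 0,
        (if ((![a, b', c] : Fin 3 → (H × K →+ ZMod 25)) j (gr f x)).val ≡
          ((![a, b', c] : Fin 3 → (H × K →+ ZMod 25)) j g0).val [MOD 5] then 1 else 0) : ℤ) :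
          ZMod 5) = if x ∈ sl 5 f (5 • g0) then
            (-1) ^ ((b + 1) * 5 - 1) * Top_D b (Top_phi (a (gr f x - g0))) else 0 := by
    intro x
    have e1 : (univ : Finset (Fin 3)).erase 0 = {1, 2} := by decide
    have e2 : ∀ d : H × K →+ ZMod 25, ((d (gr f x)).val ≡ (d g0).val [MOD 5]) ↔
        d (5 • (gr f x - g0)) = 0 := by
      intro d
      rw [Top_mod, map_nsmul, map_sub]
    have e3 : x ∈ sl 5 f (5 • g0) ↔ 5 • (gr f x - g0) = 0 := by
      rw [sl, mem_filter, smul_sub, sub_eq_zero]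
      exact ⟨fun h => h.2, fun h => ⟨mem_univ _, h⟩⟩
    rw [e1, prod_pair (by decide)]
    simp only [Matrix.cons_val_zero, Matrix.cons_val_one, Matrix.cons_val_two,
      Matrix.head_cons, Matrix.tail_cons, e2]
    rw [Int.cast_mul, ← mul_assoc, Top_tb, ← map_sub, ← map_nsmul]
    by_cases hx : 5 • (gr f x - g0) = 0
    · rw [if_pos (e3.2 hx), hx, map_zero, map_zero, map_zero, if_pos rfl, if_pos rfl]
      push_cast
      ring
    · rw [if_neg (mt e3.1 hx)]
      by_cases h3 : a (5 • (gr f x - g0)) = 0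
      · rw [if_pos h3]
        by_cases h4 : b' (5 • (gr f x - g0)) = 0
        · have h5 : ¬ c (5 • (gr f x - g0)) = 0 := fun h5 => hx (hbc _ h3 h4 h5)
          rw [if_neg h5, mul_zero, Int.cast_zero, mul_zero]
        · rw [if_neg h4, zero_mul, Int.cast_zero, mul_zero]
      · rw [if_neg h3, zero_mul]
  have h3 : ∑ x ∈ sl 5 f (5 • g0), ((-1) ^ ((b + 1) * 5 - 1) *
      Top_D b (Top_phi (a (gr f x - g0)))) * (L.map fun l => l.1 (gr f x) - l.2).prod = 0 := by
    have h5 : ∑ x : H, (if x ∈ sl 5 f (5 • g0) then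
        (-1) ^ ((b + 1) * 5 - 1) * Top_D b (Top_phi (a (gr f x - g0))) else 0) *
        (L.map fun l => l.1 (gr f x) - l.2).prod = 0 := by
      have h6 := congrArg (fun t => ((Nat.factorial b : ℕ) : ZMod 5) * t) h1
      simp only [mul_zero, mul_sum] at h6
      refine Eq.trans (sum_congr rfl fun x _ => ?_) h6
      rw [← h2 x, mul_assoc]
      refine congrArg (fun t : ZMod 5 => ((Nat.factorial b : ℕ) : ZMod 5) * (t *
        (L.map fun l => l.1 (gr f x) - l.2).prod)) (congrArg Int.cast (congrArg _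
          (prod_congr (by ext j; simp only [mem_erase]) fun j _ => ?_)))
      split_ifs <;> rfl
    simp only [ite_mul, zero_mul, sum_ite_mem, univ_inter] at h5
    exact h5
  simp only [mul_assoc, ← mul_sum] at h3
  rcases mul_eq_zero.1 h3 with h4 | h4
  · exact absurd h4 (pow_ne_zero _ Top_neg)
  · exact h4

theorem top_kills (hH : Fintype.card H = 5 ^ 6) (hK : Fintype.card K = 5 ^ 6) (f : H → K)
    (hf : IsPlanar f) (h25 : ∀ g : H × K, 25 • g = 0)
    (hP : Nat.card (Set.range fun g : H × K => 5 • g) = 5 ^ 3) (a : H × K →+ ZMod 25) (g0 : H × K)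
    (b : ℕ) (hb : b ≤ 3) (L : List ((H × K →+ ZMod 5) × ZMod 5))
    (hL : 12 + 9 * b + 5 * L.length < 60) :
    ∑ x ∈ sl 5 f (5 • g0), ph a (gr f x - g0) ^ b *
      (L.map fun l => l.1 (gr f x) - l.2).prod = 0 := by
  have : Fact (Nat.Prime 5) := ⟨Nat.prime_five⟩
  by_cases ha : ∀ g : H × K, a (5 • g) = 0
  · obtain ⟨l', hl'⟩ := ph_zero a ha
    have hk : Kills 5 (gr f) (sl 5 f (5 • g0)) 10 :=
      sl_kills (by norm_num) hH hK f hf (by norm_num) hP (by norm_num) g0
    have h1 := hk (List.replicate b (l', l' g0) ++ L) (by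
      rw [List.length_append, List.length_replicate]
      omega)
    refine Eq.trans (sum_congr rfl fun x _ => ?_) h1
    rw [List.map_append, List.prod_append, List.map_replicate, List.prod_replicate, hl', map_sub]
  · push Not at ha
    have hS : ∀ b' ≤ b, ∑ x ∈ sl 5 f (5 • g0), Top_D b' (Top_phi (a (gr f x - g0))) *
        (L.map fun l => l.1 (gr f x) - l.2).prod = 0 := fun b' hb' =>
      Top_main hH f hf h25 hP a ha g0 b' (hb'.trans hb) L (by omega)
    have hT0 : ∑ x ∈ sl 5 f (5 • g0), Top_phi (a (gr f x - g0)) ^ 0 *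
        (L.map fun l => l.1 (gr f x) - l.2).prod = 0 := by
      refine Eq.trans (sum_congr rfl fun x _ => ?_) (hS 0 (Nat.zero_le _))
      rw [pow_zero, Top_D, range_zero, prod_empty]
    have hT1 : 1 ≤ b → ∑ x ∈ sl 5 f (5 • g0), Top_phi (a (gr f x - g0)) ^ 1 *
        (L.map fun l => l.1 (gr f x) - l.2).prod = 0 := by
      intro h
      have h0 := hS 1 h
      simp only [Top_p1, add_mul, sum_add_distrib]
      rw [h0, hT0, add_zero]
    have hT2 : 2 ≤ b → ∑ x ∈ sl 5 f (5 • g0), Top_phi (a (gr f x - g0)) ^ 2 *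
        (L.map fun l => l.1 (gr f x) - l.2).prod = 0 := by
      intro h
      have h0 := hS 2 h
      have h1 := hT1 (by omega)
      have h2 : ∀ x, Top_phi (a (gr f x - g0)) ^ 2 * (L.map fun l => l.1 (gr f x) - l.2).prod =
          Top_D 2 (Top_phi (a (gr f x - g0))) * (L.map fun l => l.1 (gr f x) - l.2).prod +
          3 * (Top_phi (a (gr f x - g0)) ^ 1 * (L.map fun l => l.1 (gr f x) - l.2).prod) -
          2 * (Top_phi (a (gr f x - g0)) ^ 0 * (L.map fun l => l.1 (gr f x) - l.2).prod) := by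
        intro x
        rw [Top_p2]
        ring
      rw [sum_congr rfl fun x _ => h2 x, sum_sub_distrib, sum_add_distrib, ← mul_sum, ← mul_sum,
        h0, h1, hT0]
      ring
    have hT3 : 3 ≤ b → ∑ x ∈ sl 5 f (5 • g0), Top_phi (a (gr f x - g0)) ^ 3 *
        (L.map fun l => l.1 (gr f x) - l.2).prod = 0 := by
      intro h
      have h0 := hS 3 h
      have h1 := hT1 (by omega)
      have h3 := hT2 (by omega)
      have h2 : ∀ x, Top_phi (a (gr f x - g0)) ^ 3 * (L.map fun l => l.1 (gr f x) - l.2).prod =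
          Top_D 3 (Top_phi (a (gr f x - g0))) * (L.map fun l => l.1 (gr f x) - l.2).prod +
          6 * (Top_phi (a (gr f x - g0)) ^ 2 * (L.map fun l => l.1 (gr f x) - l.2).prod) -
          11 * (Top_phi (a (gr f x - g0)) ^ 1 * (L.map fun l => l.1 (gr f x) - l.2).prod) +
          6 * (Top_phi (a (gr f x - g0)) ^ 0 * (L.map fun l => l.1 (gr f x) - l.2).prod) := by
        intro x
        rw [Top_p3]
        ring
      rw [sum_congr rfl fun x _ => h2 x, sum_add_distrib, sum_sub_distrib, sum_add_distrib,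
        ← mul_sum, ← mul_sum, ← mul_sum, h0, h1, h3, hT0]
      ring
    have hc : b = 0 ∨ b = 1 ∨ b = 2 ∨ b = 3 := by omega
    rcases hc with rfl | rfl | rfl | rfl
    · exact hT0
    · exact hT1 le_rfl
    · exact hT2 le_rfl
    · exact hT3 le_rfl

end Pool.Agent.H88.T56
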